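import Pool.Agent.Run7.h122.Ori

/-! Few pairs of vertices with both degrees large: this follows when there are few empty `2+2`
quadruples and few `3+1` quadruples with exactly one edge. -/

set_option autoImplicit false
open Finset
open scoped Classical

namespace Pool.Agent.Run7.h122.TT

namespace Sys
variable {n r : ℕ} (S : Sys n r)

/-- paths `x - y - x'` in the non-edge graph of `w`, with `x, x', w` an edge -/
def P3C (x y x' w : Fin n) : Prop := S.nb w x y ∧ S.nb w x' y ∧ S.c x ≠ S.c w ∧ S.E x x' w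

def P3 (z : Fin n × Fin n × Fin n × Fin n) : Prop := S.P3C z.1 z.2.1 z.2.2.1 z.2.2.2

/-- `2+2` quadruples without edges -/
def EmpC (x y z w : Fin n) : Prop :=
  S.c x = S.c y ∧ S.c z = S.c w ∧ S.c x ≠ S.c z ∧ x ≠ y ∧ z ≠ w ∧ ¬ S.E x y z ∧ ¬ S.E x y w ∧
    ¬ S.E x z w ∧ ¬ S.E y z w

def Emp (z : Fin n × Fin n × Fin n × Fin n) : Prop := S.EmpC z.1 z.2.1 z.2.2.1 z.2.2.2

def MTC (e : ℝ) (w x y : Fin n) : Prop := S.MP e w x ∧ S.MP e w y ∧ S.nb w x y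

def MT (e : ℝ) (z : Fin n × Fin n × Fin n) : Prop := S.MTC e z.1 z.2.1 z.2.2

theorem mt_lower {e : ℝ} (he : 0 ≤ e) : e ^ 2 * cnt (S.MT e) ≤
    cnt (fun z : (Fin n × Fin n × Fin n × Fin n) × Fin n =>
      S.MTC e z.2 z.1.1 z.1.2.1 ∧ S.nb z.1.1 z.2 z.1.2.2.1 ∧ S.nb z.1.2.1 z.2 z.1.2.2.2) := by
  have h1 : e ^ 2 * cnt (S.MT e) ≤ cnt (fun z : (Fin n × Fin n × Fin n) × (Fin n × Fin n) =>
      S.MT e z.1 ∧ S.nb z.1.2.1 z.1.1 z.2.1 ∧ S.nb z.1.2.2 z.1.1 z.2.2) := by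
    refine cnt_fiber_ge fun q hq => ?_
    have e1 : cnt (fun b : Fin n × Fin n =>
        S.MT e q ∧ S.nb q.2.1 q.1 b.1 ∧ S.nb q.2.2 q.1 b.2) =
        S.a q.2.1 q.1 * S.a q.2.2 q.1 := by
      unfold a
      rw [← cnt_prod2]
      congr 1
      funext b
      simp only [hq, true_and]
    rw [sq]
    refine le_trans ?_ (le_of_eq e1.symm)
    have k1 : e ≤ S.a q.2.1 q.1 := hq.1.2.2
    have k2 : e ≤ S.a q.2.2 q.1 := hq.2.1.2.2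
    exact mul_le_mul k1 k2 he (he.trans k1)
  refine h1.trans (cnt_map (fun z => ((z.1.2.1, z.1.2.2, z.2.1, z.2.2), z.1.1)) ?_ ?_)
  · rintro ⟨⟨w, x, y⟩, w1, w2⟩ ⟨h1, h2, h3⟩
    exact ⟨h1, h2, h3⟩
  · rintro ⟨⟨w, x, y⟩, w1, w2⟩ ⟨⟨w', x', y'⟩, w1', w2'⟩ - - h
    simp only [Prod.mk.injEq] at h ⊢
    tauto

theorem mt_pairs {e : ℝ} :
    cnt (fun z : (Fin n × Fin n × Fin n × Fin n) × Fin n × Fin n =>
      (S.MTC e z.2.1 z.1.1 z.1.2.1 ∧ S.nb z.1.1 z.2.1 z.1.2.2.1 ∧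
        S.nb z.1.2.1 z.2.1 z.1.2.2.2) ∧
      (S.MTC e z.2.2 z.1.1 z.1.2.1 ∧ S.nb z.1.1 z.2.2 z.1.2.2.1 ∧
        S.nb z.1.2.1 z.2.2 z.1.2.2.2)) ≤
    (n : ℝ) ^ 5 + (2 * cnt S.P3 + cnt S.Emp) * (n : ℝ) ^ 2 := by
  have h0 : cnt (fun z : (Fin n × Fin n × Fin n × Fin n) × Fin n × Fin n =>
      z.2.1 = z.2.2) ≤ (n : ℝ) ^ 5 := by
    have : cnt (fun z : (Fin n × Fin n × Fin n × Fin n) × Fin n × Fin n => z.2.1 = z.2.2) ≤
        cnt (fun _ : (Fin n × Fin n × Fin n × Fin n) × Fin n => True) := by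
      refine cnt_map (fun z => (z.1, z.2.1)) (fun _ _ => trivial) ?_
      rintro ⟨q, w1, w2⟩ ⟨q', t1, t2⟩ p1 p2 h
      simp only [Prod.mk.injEq] at h p1 p2 ⊢
      obtain ⟨rfl, rfl⟩ := h
      subst p1 p2
      exact ⟨rfl, rfl, rfl⟩
    refine this.trans (le_of_eq ?_)
    rw [cnt_true]
    simp only [Fintype.card_prod, Fintype.card_fin]
    push_cast
    ring
  have key : ∀ (P : Fin n × Fin n × Fin n × Fin n → Prop)
      (f : (Fin n × Fin n × Fin n × Fin n) × Fin n × Fin n →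
        (Fin n × Fin n × Fin n × Fin n) × Fin n × Fin n),
      (∀ z z', f z = f z' → z = z') → cnt (fun z => P (f z).1) ≤ cnt P * (n : ℝ) ^ 2 := by
    intro P f hf
    refine (cnt_map (q := fun z : (Fin n × Fin n × Fin n × Fin n) × Fin n × Fin n => P z.1) f
      (fun z h => h) (fun a b _ _ h => hf a b h)).trans (le_of_eq ?_)
    rw [cnt_prod]
    simp only [Fintype.card_prod, Fintype.card_fin]
    push_cast
    ring
  have h1 := key S.P3 (fun z => ((z.2.1, z.1.2.2.1, z.2.2, z.1.1), (z.1.2.1, z.1.2.2.2)))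
    (by rintro ⟨⟨x, x', w, w'⟩, s, s'⟩ ⟨⟨u, u', t, t'⟩, v, v'⟩ h
        simp only [Prod.mk.injEq] at h ⊢; tauto)
  have h2 := key S.P3 (fun z => ((z.2.1, z.1.2.2.2, z.2.2, z.1.2.1), (z.1.1, z.1.2.2.1)))
    (by rintro ⟨⟨x, x', w, w'⟩, s, s'⟩ ⟨⟨u, u', t, t'⟩, v, v'⟩ h
        simp only [Prod.mk.injEq] at h ⊢; tauto)
  have h3 := key S.Emp (fun z => ((z.1.1, z.1.2.1, z.2.1, z.2.2), (z.1.2.2.1, z.1.2.2.2)))
    (by rintro ⟨⟨x, x', w, w'⟩, s, s'⟩ ⟨⟨u, u', t, t'⟩, v, v'⟩ h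
        simp only [Prod.mk.injEq] at h ⊢; tauto)
  refine (cnt_mono ?_).trans ((cnt_or _ _).trans (add_le_add h0 ((cnt_or _ _).trans
    (add_le_add h1 ((cnt_or _ _).trans (add_le_add h2 h3))))))
    |>.trans (le_of_eq (by ring))
  rintro ⟨⟨x, y, w1, w2⟩, w, w'⟩ ⟨⟨⟨p1, p2, p3⟩, p4, p5⟩, ⟨q1, q2, q3⟩, q4, q5⟩
  dsimp only at *
  by_cases hw : w = w'
  · exact Or.inl hw
  by_cases k1 : S.E w w' x
  · exact Or.inr (Or.inl ⟨p4, q4, p1.1, k1⟩)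
  by_cases k2 : S.E w w' y
  · exact Or.inr (Or.inr (Or.inl ⟨p5, q5, p2.1, k2⟩))
  · exact Or.inr (Or.inr (Or.inr ⟨p3.2.1.symm, p4.2.1.symm.trans q4.2.1, p1.1.symm, p3.1.symm, hw,
      p3.2.2, q3.2.2, fun h => k1 (S.rot _ _ _ h), fun h => k2 (S.rot _ _ _ h)⟩))

theorem mt_bound {e : ℝ} (he : 0 ≤ e) : (e ^ 2 * cnt (S.MT e)) ^ 2 ≤
    (n : ℝ) ^ 4 * ((n : ℝ) ^ 5 + (2 * cnt S.P3 + cnt S.Emp) * (n : ℝ) ^ 2) := by
  have h1 := cnt_cs (fun z : (Fin n × Fin n × Fin n × Fin n) × Fin n =>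
      S.MTC e z.2 z.1.1 z.1.2.1 ∧ S.nb z.1.1 z.2 z.1.2.2.1 ∧ S.nb z.1.2.1 z.2 z.1.2.2.2)
  refine (pow_le_pow_left₀ (mul_nonneg (sq_nonneg e) (cnt_nonneg _)) (S.mt_lower he) 2).trans
    (h1.trans ?_)
  have h3 : ((Fintype.card (Fin n × Fin n × Fin n × Fin n) : ℕ) : ℝ) = (n : ℝ) ^ 4 := by
    simp only [Fintype.card_prod, Fintype.card_fin]
    push_cast
    ring
  rw [h3]
  exact mul_le_mul_of_nonneg_left S.mt_pairs (by positivity)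

theorem mm_lower {e : ℝ} : e * S.MM e ≤
    cnt (fun z : (Fin n × Fin n) × Fin n => S.MP e z.1.1 z.2 ∧ S.nb z.1.1 z.2 z.1.2) := by
  have h1 : e * cnt (S.MPp e) ≤ cnt (fun z : (Fin n × Fin n) × Fin n =>
      S.MPp e z.1 ∧ S.nb z.1.1 z.1.2 z.2) := by
    refine cnt_fiber_ge fun q hq => ?_
    have e1 : cnt (fun b : Fin n => S.MPp e q ∧ S.nb q.1 q.2 b) = S.a q.1 q.2 := by
      unfold a
      congr 1
      funext b
      simp only [hq, true_and]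
    refine le_trans ?_ (le_of_eq e1.symm)
    exact hq.2.1
  refine h1.trans (cnt_map (fun z => ((z.1.1, z.2), z.1.2)) ?_ ?_)
  · rintro ⟨⟨w, x⟩, z⟩ ⟨h1, h2⟩
    exact ⟨h1, h2⟩
  · rintro ⟨⟨w, x⟩, z⟩ ⟨⟨w', x'⟩, z'⟩ - - h
    simp only [Prod.mk.injEq] at h ⊢
    tauto

theorem mm_pairs {e : ℝ} :
    cnt (fun z : (Fin n × Fin n) × Fin n × Fin n =>
      (S.MP e z.1.1 z.2.1 ∧ S.nb z.1.1 z.2.1 z.1.2) ∧
        (S.MP e z.1.1 z.2.2 ∧ S.nb z.1.1 z.2.2 z.1.2)) ≤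
    (n : ℝ) ^ 3 + cnt S.P3 + cnt (S.MT e) * (n : ℝ) := by
  have h0 : cnt (fun z : (Fin n × Fin n) × Fin n × Fin n => z.2.1 = z.2.2) ≤ (n : ℝ) ^ 3 := by
    have : cnt (fun z : (Fin n × Fin n) × Fin n × Fin n => z.2.1 = z.2.2) ≤
        cnt (fun _ : (Fin n × Fin n) × Fin n => True) := by
      refine cnt_map (fun z => (z.1, z.2.1)) (fun _ _ => trivial) ?_
      rintro ⟨q, w1, w2⟩ ⟨q', t1, t2⟩ p1 p2 h
      simp only [Prod.mk.injEq] at h p1 p2 ⊢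
      obtain ⟨rfl, rfl⟩ := h
      subst p1 p2
      exact ⟨rfl, rfl, rfl⟩
    refine this.trans (le_of_eq ?_)
    rw [cnt_true]
    simp only [Fintype.card_prod, Fintype.card_fin]
    push_cast
    ring
  have h1 : cnt (fun z : (Fin n × Fin n) × Fin n × Fin n =>
      S.P3 (z.2.1, z.1.2, z.2.2, z.1.1)) ≤ cnt S.P3 := by
    refine cnt_map (q := S.P3) (fun z : (Fin n × Fin n) × Fin n × Fin n =>
      (z.2.1, z.1.2, z.2.2, z.1.1)) (fun z h => h) ?_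
    rintro ⟨⟨x, x'⟩, w, w'⟩ ⟨⟨u, u'⟩, t, t'⟩ - - h
    simp only [Prod.mk.injEq] at h ⊢
    tauto
  have h2 : cnt (fun z : (Fin n × Fin n) × Fin n × Fin n =>
      S.MT e (z.1.1, z.2.1, z.2.2)) ≤ cnt (S.MT e) * (n : ℝ) := by
    refine (cnt_map (q := fun z : (Fin n × Fin n × Fin n) × Fin n => S.MT e z.1)
      (fun z : (Fin n × Fin n) × Fin n × Fin n =>
      ((z.1.1, z.2.1, z.2.2), z.1.2)) (fun z h => h) ?_).trans (le_of_eq ?_)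
    · rintro ⟨⟨x, x'⟩, w, w'⟩ ⟨⟨u, u'⟩, t, t'⟩ - - h
      simp only [Prod.mk.injEq] at h ⊢
      tauto
    · rw [cnt_prod, Fintype.card_fin]
  refine (cnt_mono ?_).trans ((cnt_or _ _).trans (add_le_add h0 ((cnt_or _ _).trans
    (add_le_add h1 h2)))) |>.trans (le_of_eq (by ring))
  rintro ⟨⟨w, z⟩, x, y⟩ ⟨⟨p1, p2⟩, q1, q2⟩
  dsimp only at *
  by_cases hxy : x = y
  · exact Or.inl hxy
  by_cases k1 : S.E x y w
  · exact Or.inr (Or.inl ⟨p2, q2, p1.1.symm, k1⟩)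
  · exact Or.inr (Or.inr ⟨p1, q1, fun h => hxy h.symm, q2.2.1.symm.trans p2.2.1, k1⟩)

theorem mm_bound {e : ℝ} (he : 0 ≤ e) : (e * S.MM e) ^ 2 ≤
    (n : ℝ) ^ 2 * ((n : ℝ) ^ 3 + cnt S.P3 + cnt (S.MT e) * (n : ℝ)) := by
  have h1 := cnt_cs (fun z : (Fin n × Fin n) × Fin n =>
    S.MP e z.1.1 z.2 ∧ S.nb z.1.1 z.2 z.1.2)
  refine (pow_le_pow_left₀ (mul_nonneg he (cnt_nonneg _)) S.mm_lower 2).trans (h1.trans ?_)
  have h3 : ((Fintype.card (Fin n × Fin n) : ℕ) : ℝ) = (n : ℝ) ^ 2 := by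
    simp only [Fintype.card_prod, Fintype.card_fin]
    push_cast
    ring
  rw [h3]
  exact mul_le_mul_of_nonneg_left S.mm_pairs (by positivity)

/-! Few paths if there are few `2+2` quadruples with at most one edge. -/

theorem p3_pairs : cnt (fun z : (Fin n × Fin n × Fin n × Fin r) × Fin n × Fin n =>
    (S.c z.2.1 = z.1.2.2.2 ∧ S.P3C z.1.1 z.1.2.1 z.1.2.2.1 z.2.1) ∧
    (S.c z.2.2 = z.1.2.2.2 ∧ S.P3C z.1.1 z.1.2.1 z.1.2.2.1 z.2.2)) ≤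
    (n : ℝ) ^ 4 + 2 * (cnt S.Bad * (n : ℝ)) := by
  have h0 : cnt (fun z : (Fin n × Fin n × Fin n × Fin r) × Fin n × Fin n =>
      z.2.1 = z.2.2 ∧ z.1.2.2.2 = S.c z.2.1) ≤ (n : ℝ) ^ 4 := by
    have : cnt (fun z : (Fin n × Fin n × Fin n × Fin r) × Fin n × Fin n =>
        z.2.1 = z.2.2 ∧ z.1.2.2.2 = S.c z.2.1) ≤
        cnt (fun _ : Fin n × Fin n × Fin n × Fin n => True) := by
      refine cnt_map (fun z => (z.1.1, z.1.2.1, z.1.2.2.1, z.2.1)) (fun _ _ => trivial) ?_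
      rintro ⟨⟨x, y, x', j⟩, w1, w2⟩ ⟨⟨u, v, u', i⟩, t1, t2⟩ ⟨p1, p2⟩ ⟨q1, q2⟩ h
      simp only [Prod.mk.injEq] at h p1 p2 q1 q2 ⊢
      obtain ⟨rfl, rfl, rfl, rfl⟩ := h
      subst p1 q1 p2 q2
      exact ⟨⟨rfl, rfl, rfl, rfl⟩, rfl, rfl⟩
    refine this.trans (le_of_eq ?_)
    rw [cnt_true]
    simp only [Fintype.card_prod, Fintype.card_fin]
    push_cast
    ring
  have h1 : cnt (fun z : (Fin n × Fin n × Fin n × Fin r) × Fin n × Fin n =>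
      S.BadC z.1.1 z.1.2.1 z.2.1 z.2.2 ∧ z.1.2.2.2 = S.c z.2.1) ≤ cnt S.Bad * (n : ℝ) := by
    have : cnt (fun z : (Fin n × Fin n × Fin n × Fin r) × Fin n × Fin n =>
        S.BadC z.1.1 z.1.2.1 z.2.1 z.2.2 ∧ z.1.2.2.2 = S.c z.2.1) ≤
        cnt (fun z : (Fin n × Fin n × Fin n × Fin n) × Fin n => S.Bad z.1) := by
      refine cnt_map (fun z => ((z.1.1, z.1.2.1, z.2.1, z.2.2), z.1.2.2.1))
        (fun z h => h.1) ?_
      rintro ⟨⟨x, y, x', j⟩, w1, w2⟩ ⟨⟨u, v, u', i⟩, t1, t2⟩ ⟨-, p2⟩ ⟨-, q2⟩ h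
      simp only [Prod.mk.injEq] at h p2 q2 ⊢
      obtain ⟨⟨rfl, rfl, rfl, rfl⟩, rfl⟩ := h
      subst p2 q2
      exact ⟨⟨rfl, rfl, rfl, rfl⟩, rfl, rfl⟩
    refine this.trans (le_of_eq ?_)
    rw [cnt_prod, Fintype.card_fin]
  have h2 : cnt (fun z : (Fin n × Fin n × Fin n × Fin r) × Fin n × Fin n =>
      S.BadC z.1.2.2.1 z.1.2.1 z.2.1 z.2.2 ∧ z.1.2.2.2 = S.c z.2.1) ≤ cnt S.Bad * (n : ℝ) := by
    have : cnt (fun z : (Fin n × Fin n × Fin n × Fin r) × Fin n × Fin n =>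
        S.BadC z.1.2.2.1 z.1.2.1 z.2.1 z.2.2 ∧ z.1.2.2.2 = S.c z.2.1) ≤
        cnt (fun z : (Fin n × Fin n × Fin n × Fin n) × Fin n => S.Bad z.1) := by
      refine cnt_map (fun z => ((z.1.2.2.1, z.1.2.1, z.2.1, z.2.2), z.1.1))
        (fun z h => h.1) ?_
      rintro ⟨⟨x, y, x', j⟩, w1, w2⟩ ⟨⟨u, v, u', i⟩, t1, t2⟩ ⟨-, p2⟩ ⟨-, q2⟩ h
      simp only [Prod.mk.injEq] at h p2 q2 ⊢
      obtain ⟨⟨rfl, rfl, rfl, rfl⟩, rfl⟩ := h
      subst p2 q2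
      exact ⟨⟨rfl, rfl, rfl, rfl⟩, rfl, rfl⟩
    refine this.trans (le_of_eq ?_)
    rw [cnt_prod, Fintype.card_fin]
  refine (cnt_mono ?_).trans ((cnt_or _ _).trans (add_le_add h0 ((cnt_or _ _).trans
    (add_le_add h1 h2)))) |>.trans (le_of_eq (by ring))
  rintro ⟨⟨x, y, x', j⟩, w1, w2⟩ ⟨⟨c1, ⟨n1, n2, n3⟩, ⟨m1, m2, m3⟩, c3, e1⟩,
    c1', ⟨-, -, n3'⟩, ⟨-, -, m3'⟩, -, e1'⟩
  dsimp only at *
  have k : j = S.c w1 := c1.symm
  have cw : S.c w1 = S.c w2 := c1.trans c1'.symm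
  by_cases hw : w1 = w2
  · exact Or.inl ⟨hw, k⟩
  by_cases k1 : S.E x w1 w2
  · by_cases k2 : S.E x' w1 w2
    · exact (S.free x x' w1 w2 e1 e1' k1 k2).elim
    · exact Or.inr (Or.inr ⟨⟨m2.symm, cw, fun h => c3 ((n2.symm.trans m2).trans h), m1.symm, hw,
        m3, m3', Or.inl k2⟩, k⟩)
  · exact Or.inr (Or.inl ⟨⟨n2.symm, cw, c3, n1.symm, hw, n3, n3', Or.inl k1⟩, k⟩)

theorem p3_bound : (cnt S.P3) ^ 2 ≤
    (n : ℝ) ^ 3 * r * ((n : ℝ) ^ 4 + 2 * (cnt S.Bad * (n : ℝ))) := by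
  have h0 : cnt S.P3 ≤ cnt (fun z : (Fin n × Fin n × Fin n × Fin r) × Fin n =>
      S.c z.2 = z.1.2.2.2 ∧ S.P3C z.1.1 z.1.2.1 z.1.2.2.1 z.2) := by
    refine cnt_map (fun z => ((z.1, z.2.1, z.2.2.1, S.c z.2.2.2), z.2.2.2))
      (fun z h => ⟨rfl, h⟩) ?_
    rintro ⟨x, x', w, w'⟩ ⟨u, u', t, t'⟩ - - h
    simp only [Prod.mk.injEq] at h ⊢
    tauto
  have h1 := cnt_cs (fun z : (Fin n × Fin n × Fin n × Fin r) × Fin n =>
      S.c z.2 = z.1.2.2.2 ∧ S.P3C z.1.1 z.1.2.1 z.1.2.2.1 z.2)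
  refine (pow_le_pow_left₀ (cnt_nonneg _) h0 2).trans (h1.trans ?_)
  have h3 : ((Fintype.card (Fin n × Fin n × Fin n × Fin r) : ℕ) : ℝ) = (n : ℝ) ^ 3 * r := by
    simp only [Fintype.card_prod, Fintype.card_fin]
    push_cast
    ring
  rw [h3]
  exact mul_le_mul_of_nonneg_left S.p3_pairs (by positivity)

/-! Superfluous triples. -/

/-- superfluous triples with a dominating vertex -/
def DD (z : Fin n × Fin n × Fin n) : Prop := S.E z.1 z.2.1 z.2.2 ∧ S.R z.1 z.2.1 ∧ S.R z.1 z.2.2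

def DD' (e : ℝ) (w x u : Fin n) : Prop := S.E w x u ∧ S.a x w < e ∧ S.a u w < e

theorem DD'_bound {e : ℝ} (he : 0 ≤ e) : cnt (fun z : Fin n × Fin n × Fin n =>
    S.DD' e z.1 z.2.1 z.2.2) ≤ (2 * e + 1) * ((n : ℝ) ^ 2 * r) := by
  have h1 : cnt (fun z : Fin n × Fin n × Fin n => S.DD' e z.1 z.2.1 z.2.2) ≤
      cnt (fun z : (Fin n × Fin n × Fin r) × Fin n => S.c z.2 = z.1.2.2 ∧
        S.DD' e z.2 z.1.1 z.1.2.1) := by
    refine cnt_map (fun z => ((z.2.1, z.2.2, S.c z.1), z.1)) (fun z h => ⟨rfl, h⟩) ?_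
    rintro ⟨x, x', w⟩ ⟨u, u', t⟩ - - h
    simp only [Prod.mk.injEq] at h ⊢
    tauto
  refine h1.trans ((cnt_fiber_le' (t := 2 * e + 1) ?_).trans (le_of_eq ?_))
  · rintro ⟨x, u, j⟩
    dsimp only
    by_cases h : ∃ w0, S.c w0 = j ∧ S.DD' e w0 x u
    · obtain ⟨w0, hj, d4, d5, d6⟩ := h
      have h2 : cnt (fun b => S.c b = j ∧ S.DD' e b x u) ≤
          cnt (fun b => b = w0 ∨ S.nb x w0 b ∨ S.nb u w0 b) := by
        refine cnt_mono ?_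
        rintro v ⟨vj, v4, v5, v6⟩
        by_cases ev : v = w0
        · exact Or.inl ev
        by_cases q1 : S.E w0 v x
        · by_cases q2 : S.E w0 v u
          · exact (S.free w0 v x u q1 q2 d4 v4).elim
          · exact Or.inr (Or.inr ⟨ev, vj.trans hj.symm, q2⟩)
        · exact Or.inr (Or.inl ⟨ev, vj.trans hj.symm, q1⟩)
      have h3 : cnt (fun b => b = w0 ∨ S.nb x w0 b ∨ S.nb u w0 b) ≤
          1 + (S.a x w0 + S.a u w0) := by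
        refine (cnt_or _ _).trans (add_le_add (le_of_eq (cnt_eq_one w0)) (cnt_or _ _))
      linarith
    · refine (cnt_mono (q := fun _ => False) (fun y hy => h ⟨y, hy⟩)).trans ?_
      rw [cnt_false]
      linarith
  · simp only [Fintype.card_prod, Fintype.card_fin]
    push_cast
    ring

theorem DD_bound {e : ℝ} (he : 0 ≤ e) : cnt S.DD ≤ 2 * (S.NN e * (n : ℝ)) +
    2 * (S.MM e * (n : ℝ)) + (2 * e + 1) * ((n : ℝ) ^ 2 * r) := by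
  refine (cnt_mono ?_).trans ((cnt_or _ _).trans (add_le_add (S.NP12 (e := e)) ((cnt_or _ _).trans
    (add_le_add (S.NP13 (e := e)) ((cnt_or _ _).trans (add_le_add (S.MP12 (e := e))
      ((cnt_or _ _).trans (add_le_add (S.MP13 (e := e)) (S.DD'_bound he)))))))))
    |>.trans (le_of_eq (by ring))
  rintro ⟨w, x, x'⟩ ⟨q, r1, r2⟩
  dsimp only at *
  by_cases k1 : S.a w x < e
  · exact Or.inl ⟨S.R_ne r1, k1, (S.R_le r1).trans_lt k1⟩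
  by_cases k2 : S.a w x' < e
  · exact Or.inr (Or.inl ⟨S.R_ne r2, k2, (S.R_le r2).trans_lt k2⟩)
  push Not at k1 k2
  by_cases k3 : S.a x w < e
  · by_cases k4 : S.a x' w < e
    · exact Or.inr (Or.inr (Or.inr (Or.inr ⟨q, k3, k4⟩)))
    · push Not at k4
      exact Or.inr (Or.inr (Or.inr (Or.inl ⟨S.R_ne r2, k2, k4⟩)))
  · push Not at k3
    exact Or.inr (Or.inr (Or.inl ⟨S.R_ne r1, k1, k3⟩))

theorem BadT_bound' {e : ℝ} (he : 0 ≤ e) : cnt S.BadT ≤ cnt S.Inn +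
    2 * (S.NN e * (n : ℝ)) + 2 * (S.MM e * (n : ℝ)) + (2 * e + 1) * ((n : ℝ) ^ 2 * r) := by
  refine (cnt_mono ?_).trans ((cnt_or _ _).trans (add_le_add (le_refl (cnt S.Inn))
    (S.DD_bound he))) |>.trans (le_of_eq (by ring))
  rintro ⟨x, y, z⟩ ⟨q, h | h⟩
  · exact Or.inl ⟨q, h⟩
  · exact Or.inr ⟨q, h⟩

end Sys

end Pool.Agent.Run7.h122.TT
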