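import Pool.Agent.Run7.h122.FinalB
import Pool.Agent.Results.MP_f1799f_co.FonDerFlaass

/-! From 3-graphs as families of sets to the relational form. -/

set_option autoImplicit false
open Finset
open scoped Classical

namespace Pool.Agent.Run7.h122.TT
open Pool.Agent.Results.MP_f1799f_co.FonDerFlaass (construction K43Free IsOriented NoInducedC4 fdf)

section sets
variable {n : ℕ}

theorem dist3 {x y z : Fin n} (h : ({x, y, z} : Finset (Fin n)).card = 3) :
    x ≠ y ∧ x ≠ z ∧ y ≠ z := by
  refine ⟨?_, ?_, ?_⟩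
  · rintro rfl
    rw [insert_eq_of_mem (by simp)] at h
    have := card_le_two (a := x) (b := z)
    omega
  · rintro rfl
    rw [insert_eq_of_mem (by simp)] at h
    have := card_le_two (a := y) (b := x)
    omega
  · rintro rfl
    rw [pair_eq_singleton] at h
    have := card_le_two (a := x) (b := y)
    omega

theorem card3' {x y z : Fin n} (h1 : x ≠ y) (h2 : x ≠ z) (h3 : y ≠ z) :
    ({x, y, z} : Finset (Fin n)).card = 3 := by
  rw [card_insert_of_notMem, card_insert_of_notMem, card_singleton] <;>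
    simp [h1, h2, h3]

theorem card4' {x y z w : Fin n} (h1 : x ≠ y) (h2 : x ≠ z) (h3 : x ≠ w) (h4 : y ≠ z) (h5 : y ≠ w)
    (h6 : z ≠ w) : ({x, y, z, w} : Finset (Fin n)).card = 4 := by
  rw [card_insert_of_notMem, card_insert_of_notMem, card_insert_of_notMem, card_singleton] <;>
    simp [h1, h2, h3, h4, h5, h6]

theorem dist4 {x y z w : Fin n} (h : ({x, y, z, w} : Finset (Fin n)).card = 4) :
    x ≠ y ∧ x ≠ z ∧ x ≠ w ∧ y ≠ z ∧ y ≠ w ∧ z ≠ w := by
  have k3 : ∀ a b c : Fin n, ({a, b, c} : Finset (Fin n)).card ≤ 3 := fun a b c => card_le_three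
  refine ⟨?_, ?_, ?_, ?_, ?_, ?_⟩
  · rintro rfl
    rw [insert_eq_of_mem (by simp)] at h
    have := k3 x z w
    omega
  · rintro rfl
    rw [insert_eq_of_mem (by simp)] at h
    have := k3 y x w
    omega
  · rintro rfl
    rw [insert_eq_of_mem (by simp)] at h
    have := k3 y z x
    omega
  · rintro rfl
    rw [insert_eq_of_mem (s := {y, w}) (a := y) (by simp)] at h
    have := k3 x y w
    have := card_le_three (a := x) (b := y) (c := w)
    omega
  · rintro rfl
    rw [insert_eq_of_mem (s := {z, y}) (a := y) (by simp)] at h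
    have := card_le_three (a := x) (b := z) (c := y)
    omega
  · rintro rfl
    rw [pair_eq_singleton] at h
    have := card_le_three (a := x) (b := y) (c := z)
    omega

/-- the 3-subsets of a 4-set -/
theorem sub4 {x y z w : Fin n} {e : Finset (Fin n)} (he : e ⊆ {x, y, z, w}) (hc : e.card = 3)
    (hS : ({x, y, z, w} : Finset (Fin n)).card = 4) :
    e = {x, y, z} ∨ e = {x, y, w} ∨ e = {x, z, w} ∨ e = {y, z, w} := by
  obtain ⟨h1, h2, h3, h4, h5, h6⟩ := dist4 hS
  have key : ∀ t : Finset (Fin n), t.card = 3 → e ⊆ t → e = t := fun t ht h =>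
    eq_of_subset_of_card_le h (by omega)
  by_cases kw : w ∈ e
  · by_cases kz : z ∈ e
    · by_cases ky : y ∈ e
      · by_cases kx : x ∈ e
        · exfalso
          have : ({x, y, z, w} : Finset (Fin n)) ⊆ e := by
            intro a ha
            simp only [mem_insert, mem_singleton] at ha
            rcases ha with rfl | rfl | rfl | rfl <;> assumption
          have := card_le_card this
          omega
        · right; right; right
          refine key _ (card3' h4 h5 h6) fun a ha => ?_
          have := he ha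
          simp only [mem_insert, mem_singleton] at this ⊢
          rcases this with rfl | h | h | h
          · exact absurd ha kx
          all_goals tauto
      · right; right; left
        refine key _ (card3' h2 h3 h6) fun a ha => ?_
        have := he ha
        simp only [mem_insert, mem_singleton] at this ⊢
        rcases this with h | rfl | h | h
        · tauto
        · exact absurd ha ky
        all_goals tauto
    · right; left
      refine key _ (card3' h1 h3 h5) fun a ha => ?_
      have := he ha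
      simp only [mem_insert, mem_singleton] at this ⊢
      rcases this with h | h | rfl | h
      · tauto
      · tauto
      · exact absurd ha kz
      · tauto
  · left
    refine key _ (card3' h1 h2 h4) fun a ha => ?_
    have := he ha
    simp only [mem_insert, mem_singleton] at this ⊢
    rcases this with h | h | h | rfl
    · tauto
    · tauto
    · tauto
    · exact absurd ha kw

theorem cnt_le_of_mem {α : Type*} [Fintype α] {p : α → Prop} (T : Finset α)
    (h : ∀ a, p a → a ∈ T) : cnt p ≤ (T.card : ℝ) := by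
  unfold cnt
  rw [Nat.cast_le]
  refine card_le_card fun a ha => ?_
  simp only [mem_filter, mem_univ, true_and] at ha
  exact h a ha

/-- few 3-sets give few triples -/
theorem cnt_sets3 (F : Finset (Finset (Fin n))) (hF : ∀ e ∈ F, e.card = 3) :
    cnt (fun z : Fin n × Fin n × Fin n => ({z.1, z.2.1, z.2.2} : Finset (Fin n)) ∈ F) ≤
      27 * (F.card : ℝ) := by
  refine (cnt_le_of_mem (F.biUnion fun e => e ×ˢ (e ×ˢ e)) fun z hz => ?_).trans ?_
  · refine mem_biUnion.2 ⟨_, hz, ?_⟩
    simp
  have h3 : ∑ e ∈ F, (e ×ˢ (e ×ˢ e)).card = ∑ _e ∈ F, 27 := by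
    refine sum_congr rfl fun e he => ?_
    rw [card_product, card_product, hF e he]
  have h2 := card_biUnion_le (s := F) (t := fun e : Finset (Fin n) => e ×ˢ (e ×ˢ e))
  rw [h3, sum_const, smul_eq_mul] at h2
  have h4 : (((F.biUnion fun e => e ×ˢ (e ×ˢ e)).card : ℕ) : ℝ) ≤ ((F.card * 27 : ℕ) : ℝ) := by
    exact_mod_cast h2
  push_cast at h4
  linarith

/-- few 4-sets give few quadruples -/
theorem cnt_sets4 (F : Finset (Finset (Fin n))) (hF : ∀ e ∈ F, e.card = 4) :
    cnt (fun z : Fin n × Fin n × Fin n × Fin n =>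
      ({z.1, z.2.1, z.2.2.1, z.2.2.2} : Finset (Fin n)) ∈ F) ≤ 256 * (F.card : ℝ) := by
  refine (cnt_le_of_mem (F.biUnion fun e => e ×ˢ (e ×ˢ (e ×ˢ e))) fun z hz => ?_).trans ?_
  · refine mem_biUnion.2 ⟨_, hz, ?_⟩
    simp
  have h3 : ∑ e ∈ F, (e ×ˢ (e ×ˢ (e ×ˢ e))).card = ∑ _e ∈ F, 256 := by
    refine sum_congr rfl fun e he => ?_
    rw [card_product, card_product, card_product, hF e he]
  have h2 := card_biUnion_le (s := F) (t := fun e : Finset (Fin n) => e ×ˢ (e ×ˢ (e ×ˢ e)))
  rw [h3, sum_const, smul_eq_mul] at h2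
  have h4 : (((F.biUnion fun e => e ×ˢ (e ×ˢ (e ×ˢ e))).card : ℕ) : ℝ) ≤
      ((F.card * 256 : ℕ) : ℝ) := by
    exact_mod_cast h2
  push_cast at h4
  linarith

theorem perm213 (x y z : Fin n) : ({x, y, z} : Finset (Fin n)) = {y, x, z} := insert_comm _ _ _
theorem perm132 (x y z : Fin n) : ({x, y, z} : Finset (Fin n)) = {x, z, y} := by
  rw [pair_comm]

/-- six times the number of edges -/
theorem six_le {H : Finset (Finset (Fin n))} (h3 : ∀ e ∈ H, e.card = 3) :
    6 * (H.card : ℝ) ≤
      cnt (fun t : Fin n × Fin n × Fin n => ({t.1, t.2.1, t.2.2} : Finset (Fin n)) ∈ H) := by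
  obtain ⟨T, hT⟩ : ∃ T : Finset (Fin n × Fin n × Fin n), T =
    univ.filter fun t => ({t.1, t.2.1, t.2.2} : Finset (Fin n)) ∈ H := ⟨_, rfl⟩
  have e1 : cnt (fun t : Fin n × Fin n × Fin n => ({t.1, t.2.1, t.2.2} : Finset (Fin n)) ∈ H) =
      (T.card : ℝ) := by
    rw [hT]
    unfold cnt
    congr!
  have hfw := card_eq_sum_card_fiberwise (s := T)
    (f := fun t : Fin n × Fin n × Fin n => ({t.1, t.2.1, t.2.2} : Finset (Fin n)))
    (t := H) (fun t ht => by
      rw [hT] at ht
      exact (mem_filter.mp (mem_coe.mp ht)).2)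
  have e2 : ∑ _e ∈ H, 6 ≤ ∑ e ∈ H, (T.filter fun t : Fin n × Fin n × Fin n =>
      ({t.1, t.2.1, t.2.2} : Finset (Fin n)) = e).card := by
    refine sum_le_sum fun e he => ?_
    obtain ⟨a, b, c, hab, hac, hbc, rfl⟩ := Finset.card_eq_three.mp (h3 e he)
    have hsub : ({(a, b, c), (a, c, b), (b, a, c), (b, c, a), (c, a, b), (c, b, a)} :
        Finset (Fin n × Fin n × Fin n)) ⊆ T.filter (fun t : Fin n × Fin n × Fin n =>
        ({t.1, t.2.1, t.2.2} : Finset (Fin n)) = {a, b, c}) := by
      intro t ht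
      have h5 : ({t.1, t.2.1, t.2.2} : Finset (Fin n)) = {a, b, c} := by
        simp only [mem_insert, mem_singleton] at ht
        rcases ht with rfl | rfl | rfl | rfl | rfl | rfl <;> ext u <;>
          simp only [mem_insert, mem_singleton] <;> tauto
      rw [mem_filter, hT, mem_filter]
      exact ⟨⟨mem_univ _, by rw [h5]; exact he⟩, h5⟩
    refine le_trans ?_ (card_le_card hsub)
    have h6 : ({(a, b, c), (a, c, b), (b, a, c), (b, c, a), (c, a, b), (c, b, a)} :
        Finset (Fin n × Fin n × Fin n)).card = 6 := by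
      repeat rw [card_insert_of_notMem]
      · simp
      all_goals simp [hab, hac, hbc, hab.symm, hac.symm, hbc.symm]
    rw [h6]
  rw [sum_const, smul_eq_mul] at e2
  rw [e1, hfw]
  have e3 : ((H.card * 6 : ℕ) : ℝ) ≤ ((∑ e ∈ H, (T.filter fun t : Fin n × Fin n × Fin n =>
      ({t.1, t.2.1, t.2.2} : Finset (Fin n)) = e).card : ℕ) : ℝ) := by exact_mod_cast e2
  push_cast at e3 ⊢
  linarith

end sets

/-- the relational form of a `K_4^3`-free 3-graph -/
def toSys {n r : ℕ} (H : Finset (Finset (Fin n))) (c : Fin n → Fin r)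
    (h3 : ∀ e ∈ H, e.card = 3) (hK : K43Free H) : Sys n r where
  E x y z := ({x, y, z} : Finset (Fin n)) ∈ H
  c := c
  s12 x y z h := by rwa [perm213] at h
  s23 x y z h := by rwa [perm132] at h
  ne x y z h := (dist3 (h3 _ h)).1
  free x y z w h1 h2 h3' h4 := by
    obtain ⟨a1, a2, a3⟩ := dist3 (h3 _ h1)
    obtain ⟨b1, b2, b3⟩ := dist3 (h3 _ h2)
    obtain ⟨c1, c2, c3⟩ := dist3 (h3 _ h3')
    have hS := card4' a1 a2 b2 a3 b3 c3
    obtain ⟨s, hs, hs3, hsH⟩ := hK {x, y, z, w} hS
    rcases sub4 hs hs3 hS with rfl | rfl | rfl | rfl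
    · exact hsH h1
    · exact hsH h2
    · exact hsH h3'
    · exact hsH h4

end Pool.Agent.Run7.h122.TT
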