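import Mathlib

/-! Real-valued counting of predicates on finite types: elementary tools. -/

set_option autoImplicit false
open Finset
open scoped Classical

namespace Pool.Agent.Run7.h122.TT

/-- the number of elements with the property `p`, as a real number -/
noncomputable def cnt {α : Type*} [Fintype α] (p : α → Prop) : ℝ :=
  ((Finset.univ.filter p).card : ℝ)

section
variable {α β : Type*} [Fintype α] [Fintype β]

theorem cnt_nonneg (p : α → Prop) : 0 ≤ cnt p := Nat.cast_nonneg _

theorem cnt_mono {p q : α → Prop} (h : ∀ a, p a → q a) : cnt p ≤ cnt q := by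
  unfold cnt
  have : (univ.filter p) ⊆ (univ.filter q) := by
    intro a ha
    simp only [mem_filter, mem_univ, true_and] at ha ⊢
    exact h a ha
  exact_mod_cast card_le_card this

theorem cnt_true : cnt (fun _ : α => True) = (Fintype.card α : ℝ) := by
  unfold cnt
  simp

theorem cnt_le_card (p : α → Prop) : cnt p ≤ (Fintype.card α : ℝ) := by
  rw [← cnt_true (α := α)]
  exact cnt_mono fun _ _ => trivial

theorem cnt_or (p q : α → Prop) : cnt (fun a => p a ∨ q a) ≤ cnt p + cnt q := by
  unfold cnt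
  rw [← Nat.cast_add, Nat.cast_le]
  refine (card_le_card ?_).trans (card_union_le _ _)
  intro a ha
  simp only [mem_filter, mem_univ, true_and, mem_union] at ha ⊢
  exact ha

theorem cnt_map {p : α → Prop} {q : β → Prop} (f : α → β) (hf : ∀ a, p a → q (f a))
    (hi : ∀ a b, p a → p b → f a = f b → a = b) : cnt p ≤ cnt q := by
  unfold cnt
  have : (univ.filter p).card ≤ (univ.filter q).card := by
    refine card_le_card_of_injOn f ?_ ?_
    · intro a ha
      simp only [coe_filter, mem_univ, true_and, Set.mem_ofPred_eq] at ha ⊢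
      exact hf a ha
    · intro a ha b hb hab
      simp only [coe_filter, mem_univ, true_and, Set.mem_ofPred_eq] at ha hb
      exact hi a b ha hb hab
  exact_mod_cast this

theorem cnt_equiv (e : α ≃ β) (q : β → Prop) : cnt (fun a => q (e a)) = cnt q := by
  apply le_antisymm
  · exact cnt_map (e : α → β) (fun a h => h) (fun a b _ _ h => e.injective h)
  · exact cnt_map (e.symm : β → α) (fun a h => by simpa using h)
      (fun a b _ _ h => e.symm.injective h)

theorem cnt_eq_sum (p : α → Prop) : cnt p = ∑ a, (if p a then (1 : ℝ) else 0) := by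
  unfold cnt
  rw [card_filter]
  push_cast
  rfl

theorem cnt_fiber (p : α × β → Prop) : cnt p = ∑ a, cnt (fun b => p (a, b)) := by
  simp only [cnt_eq_sum]
  rw [Fintype.sum_prod_type]

theorem cnt_prod2 (p : α → Prop) (q : β → Prop) :
    cnt (fun z : α × β => p z.1 ∧ q z.2) = cnt p * cnt q := by
  rw [cnt_fiber, cnt_eq_sum p, sum_mul]
  refine sum_congr rfl fun a _ => ?_
  by_cases h : p a
  · simp [h]
  · simp [h, cnt]

theorem cnt_prod (p : α → Prop) :
    cnt (fun z : α × β => p z.1) = cnt p * (Fintype.card β : ℝ) := by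
  rw [← cnt_true (α := β), ← cnt_prod2]
  congr 1
  funext z
  simp

theorem cnt_fiber_le {p : α × β → Prop} {q : α → Prop} {t : ℝ}
    (h1 : ∀ a b, p (a, b) → q a) (h2 : ∀ a, q a → cnt (fun b => p (a, b)) ≤ t) :
    cnt p ≤ t * cnt q := by
  rw [cnt_fiber, cnt_eq_sum q, mul_sum]
  refine sum_le_sum fun a _ => ?_
  by_cases h : q a
  · rw [if_pos h, mul_one]
    exact h2 a h
  · rw [if_neg h, mul_zero]
    have : cnt (fun b => p (a, b)) ≤ cnt (fun _ : β => False) := cnt_mono fun b hb => h (h1 a b hb)
    refine this.trans ?_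
    simp [cnt]

theorem cnt_fiber_le' {p : α × β → Prop} {t : ℝ}
    (h2 : ∀ a, cnt (fun b => p (a, b)) ≤ t) :
    cnt p ≤ t * (Fintype.card α : ℝ) := by
  rw [← cnt_true (α := α)]
  exact cnt_fiber_le (fun _ _ _ => trivial) (fun a _ => h2 a)

theorem cnt_fiber_ge {p : α × β → Prop} {q : α → Prop} {t : ℝ}
    (h2 : ∀ a, q a → t ≤ cnt (fun b => p (a, b))) : t * cnt q ≤ cnt p := by
  rw [cnt_fiber, cnt_eq_sum q, mul_sum]
  refine sum_le_sum fun a _ => ?_
  by_cases h : q a
  · rw [if_pos h, mul_one]
    exact h2 a h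
  · rw [if_neg h, mul_zero]
    exact cnt_nonneg _

/-- Cauchy–Schwarz -/
theorem cnt_cs (p : α × β → Prop) :
    (cnt p) ^ 2 ≤ (Fintype.card α : ℝ) *
      cnt (fun z : α × β × β => p (z.1, z.2.1) ∧ p (z.1, z.2.2)) := by
  have h1 : cnt (fun z : α × β × β => p (z.1, z.2.1) ∧ p (z.1, z.2.2)) =
      ∑ a, (cnt (fun b => p (a, b))) ^ 2 := by
    rw [cnt_fiber]
    refine sum_congr rfl fun a _ => ?_
    rw [sq, ← cnt_prod2]
  rw [h1, cnt_fiber]
  have := sq_sum_le_card_mul_sum_sq (s := (univ : Finset α)) (f := fun a => cnt fun b => p (a, b))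
  rwa [card_univ] at this

end

end Pool.Agent.Run7.h122.TT
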