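import Pool.Agent.Run7.h122.Ori
import Pool.Agent.H122R2.FdF.Main

/-! Sampling: from few bad triples and few induced 4-cycles to the density bound. -/

set_option autoImplicit false
open Finset
open scoped Classical

namespace Pool.Agent.Run7.h122.TT

section
variable {s k : ℕ} {V : Type} [Fintype V]

theorem samp (I : Fin k → Fin s) (hI : Function.Injective I) (p : (Fin k → V) → Prop) :
    cnt (fun f : Fin s → V => p (fun a => f (I a))) = cnt p * (Fintype.card V : ℝ) ^ (s - k) := by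
  set P : Fin s → Prop := fun i => i ∈ Set.range I with hP
  let E1 := Equiv.piEquivPiSubtypeProd P (fun _ => V)
  let E2 : ({x // P x} → V) ≃ (Fin k → V) :=
    Equiv.arrowCongr (Equiv.ofInjective I hI).symm (Equiv.refl V)
  let E := E1.trans (Equiv.prodCongr E2 (Equiv.refl ({x // ¬ P x} → V)))
  have h1 := cnt_equiv E (fun z => p z.1)
  have h2 : (fun a : Fin s → V => p (E a).1) = fun f : Fin s → V => p (fun a => f (I a)) := by
    funext f
    congr 1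
  rw [h2] at h1
  rw [h1, cnt_prod]
  have h3 : Fintype.card {x // P x} = k := by
    have := Fintype.card_congr (Equiv.ofInjective I hI)
    rw [Fintype.card_fin] at this
    exact (Fintype.card_congr (Equiv.refl _)).trans this.symm
  have h4 : Fintype.card {x // ¬ P x} = s - k := by
    rw [Fintype.card_subtype_compl, Fintype.card_fin, h3]
  rw [Fintype.card_fun, h4]
  push_cast
  rfl

theorem samp3 {i j l : Fin s} (hij : i ≠ j) (hil : i ≠ l) (hjl : j ≠ l) (F : V × V × V → Prop) :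
    cnt (fun f : Fin s → V => F (f i, f j, f l)) = cnt F * (Fintype.card V : ℝ) ^ (s - 3) := by
  have hI : Function.Injective ![i, j, l] := by
    intro a b
    fin_cases a <;> fin_cases b <;> simp [hij, hil, hjl, hij.symm, hil.symm, hjl.symm]
  have h1 := samp ![i, j, l] hI (fun h : Fin 3 → V => F (h 0, h 1, h 2))
  have h2 : (fun f : Fin s → V => (fun h : Fin 3 → V => F (h 0, h 1, h 2))
      (fun a => f (![i, j, l] a))) = fun f : Fin s → V => F (f i, f j, f l) := by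
    funext f
    rfl
  rw [h2] at h1
  rw [h1]
  congr 1
  apply le_antisymm
  · refine cnt_map (fun h : Fin 3 → V => (h 0, h 1, h 2)) (fun h hh => hh) ?_
    rintro g h - - e
    simp only [Prod.mk.injEq] at e
    funext a
    fin_cases a
    · exact e.1
    · exact e.2.1
    · exact e.2.2
  · refine cnt_map (fun t : V × V × V => ![t.1, t.2.1, t.2.2]) (fun t ht => ht) ?_
    rintro ⟨x, y, z⟩ ⟨x', y', z'⟩ - - e
    have e0 := congrFun e 0
    have e1 := congrFun e 1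
    have e2 := congrFun e 2
    simp only [Matrix.cons_val_zero, Matrix.cons_val_one, Matrix.cons_val] at e0 e1 e2
    rw [e0, e1, e2]

theorem samp4 {i j l m : Fin s} (hij : i ≠ j) (hil : i ≠ l) (him : i ≠ m) (hjl : j ≠ l)
    (hjm : j ≠ m) (hlm : l ≠ m) (F : V × V × V × V → Prop) :
    cnt (fun f : Fin s → V => F (f i, f j, f l, f m)) =
      cnt F * (Fintype.card V : ℝ) ^ (s - 4) := by
  have hI : Function.Injective ![i, j, l, m] := by
    intro a b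
    fin_cases a <;> fin_cases b <;> simp [hij, hil, him, hjl, hjm, hlm, hij.symm, hil.symm,
      him.symm, hjl.symm, hjm.symm, hlm.symm]
  have h1 := samp ![i, j, l, m] hI (fun h : Fin 4 → V => F (h 0, h 1, h 2, h 3))
  have h2 : (fun f : Fin s → V => (fun h : Fin 4 → V => F (h 0, h 1, h 2, h 3))
      (fun a => f (![i, j, l, m] a))) = fun f : Fin s → V => F (f i, f j, f l, f m) := by
    funext f
    rfl
  rw [h2] at h1
  rw [h1]
  congr 1
  apply le_antisymm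
  · refine cnt_map (fun h : Fin 4 → V => (h 0, h 1, h 2, h 3)) (fun h hh => hh) ?_
    rintro g h - - e
    simp only [Prod.mk.injEq] at e
    funext a
    fin_cases a
    · exact e.1
    · exact e.2.1
    · exact e.2.2.1
    · exact e.2.2.2
  · refine cnt_map (fun t : V × V × V × V => ![t.1, t.2.1, t.2.2.1, t.2.2.2]) (fun t ht => ht) ?_
    rintro ⟨x, y, z, w⟩ ⟨x', y', z', w'⟩ - - e
    have e0 := congrFun e 0
    have e1 := congrFun e 1
    have e2 := congrFun e 2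
    have e3 := congrFun e 3
    simp only [Matrix.cons_val_zero, Matrix.cons_val_one, Matrix.cons_val] at e0 e1 e2 e3
    rw [e0, e1, e2, e3]

theorem exists_cnt {α β : Type*} [Fintype α] [Fintype β] (Q : β × α → Prop) :
    cnt (fun a : α => ∃ b, Q (b, a)) ≤ cnt Q := by
  by_cases hb : Nonempty β
  · refine cnt_map (fun a => (if h : ∃ b, Q (b, a) then h.choose else hb.some, a)) ?_ ?_
    · intro a h
      rw [dif_pos h]
      exact h.choose_spec
    · intro a b _ _ h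
      simp only [Prod.mk.injEq] at h
      exact h.2
  · refine (cnt_mono (q := fun _ => False) ?_).trans ?_
    · rintro a ⟨b, -⟩
      exact hb ⟨b⟩
    · simp only [cnt]
      simp

end

namespace Sys
open Pool.Agent.H122R2.FdF (H N A T main_weighted Oriented C4Free)
variable {n r : ℕ} (S : Sys n r)

theorem H_le_one {V : Type} (R : V → V → Prop) (hO : Oriented R) (x y z : V) :
    Pool.Agent.H122R2.FdF.H R x y z ≤ 1 := by
  unfold Pool.Agent.H122R2.FdF.H Pool.Agent.H122R2.FdF.N Pool.Agent.H122R2.FdF.A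
  have h1 := hO x y
  have h2 := hO x z
  have h3 := hO y z
  by_cases a1 : R x y <;> by_cases a2 : R y x <;> by_cases a3 : R x z <;> by_cases a4 : R z x <;>
    by_cases a5 : R y z <;> by_cases a6 : R z y <;>
    simp only [a1, a2, a3, a4, a5, a6, true_or, or_true, or_self, if_true, if_false] <;>
    first | (exact absurd a2 (h1 a1)) | (exact absurd a4 (h2 a3)) |
      (exact absurd a6 (h3 a5)) | norm_num

theorem H_zero {x y z : Fin n} (hE : S.E x y z) (b1 : ¬ S.BadT (x, y, z))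
    (b2 : ¬ S.BadT (y, x, z)) (b3 : ¬ S.BadT (z, x, y)) :
    Pool.Agent.H122R2.FdF.H S.R x y z = 0 := by
  have c1 : ¬ ((S.c x = S.c y ∧ S.c x = S.c z) ∨ (S.R x y ∧ S.R x z)) := fun h => b1 ⟨hE, h⟩
  have c2 : ¬ ((S.c y = S.c x ∧ S.c y = S.c z) ∨ (S.R y x ∧ S.R y z)) :=
    fun h => b2 ⟨S.s12 _ _ _ hE, h⟩
  have c3 : ¬ ((S.c z = S.c x ∧ S.c z = S.c y) ∨ (S.R z x ∧ S.R z y)) :=
    fun h => b3 ⟨S.rot2 _ _ _ hE, h⟩
  push Not at c1 c2 c3
  have d1 : ∀ u v, ¬ (S.R u v ∨ S.R v u) → S.c u = S.c v := by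
    intro u v h
    push Not at h
    exact S.c_eq h.1 h.2
  have k1 : ¬ (S.R x y ∨ S.R y x) → ¬ ¬ (S.R x z ∨ S.R z x) := fun h h' =>
    c1.1 (d1 _ _ h) (d1 _ _ h')
  have k2 : ¬ (S.R x y ∨ S.R y x) → ¬ ¬ (S.R y z ∨ S.R z y) := fun h h' =>
    c2.1 (d1 _ _ h).symm (d1 _ _ h')
  have k3 : ¬ (S.R x z ∨ S.R z x) → ¬ ¬ (S.R y z ∨ S.R z y) := fun h h' =>
    c3.1 (d1 _ _ h).symm (d1 _ _ h').symm
  unfold Pool.Agent.H122R2.FdF.H Pool.Agent.H122R2.FdF.N Pool.Agent.H122R2.FdF.A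
  have e1 : (if S.R x y then (1 : ℝ) else 0) * (if S.R x z then (1 : ℝ) else 0) = 0 := by
    by_cases h : S.R x y
    · rw [if_neg (c1.2 h), mul_zero]
    · rw [if_neg h, zero_mul]
  have e2 : (if S.R y x then (1 : ℝ) else 0) * (if S.R y z then (1 : ℝ) else 0) = 0 := by
    by_cases h : S.R y x
    · rw [if_neg (c2.2 h), mul_zero]
    · rw [if_neg h, zero_mul]
  have e3 : (if S.R z x then (1 : ℝ) else 0) * (if S.R z y then (1 : ℝ) else 0) = 0 := by
    by_cases h : S.R z x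
    · rw [if_neg (c3.2 h), mul_zero]
    · rw [if_neg h, zero_mul]
  rw [e1, e2, e3]
  by_cases h1 : S.R x y ∨ S.R y x
  · rw [if_pos h1]
    by_cases h2 : S.R x z ∨ S.R z x
    · rw [if_pos h2]
      ring
    · have h3 := not_not.1 (k3 h2)
      rw [if_pos h3]
      ring
  · have h2 := not_not.1 (k1 h1)
    have h3 := not_not.1 (k2 h1)
    rw [if_pos h2, if_pos h3]
    ring

/-- the number of index triples whose image is an edge -/
noncomputable def Tf {s : ℕ} (f : Fin s → Fin n) : ℝ :=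
  cnt (fun t : Fin s × Fin s × Fin s => S.E (f t.1) (f t.2.1) (f t.2.2))

def badf {s : ℕ} (f : Fin s → Fin n) : Prop :=
  (∃ t : Fin s × Fin s × Fin s, S.BadT (f t.1, f t.2.1, f t.2.2)) ∨
    ∃ t : Fin s × Fin s × Fin s × Fin s, S.C4 (f t.1, f t.2.1, f t.2.2.1, f t.2.2.2)

theorem Tf_le {s : ℕ} (f : Fin s → Fin n) : S.Tf f ≤ (s : ℝ) ^ 3 := by
  refine (cnt_le_card _).trans (le_of_eq ?_)
  simp only [Fintype.card_prod, Fintype.card_fin]
  push_cast
  ring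

theorem Tf_good {s : ℕ} (hs : 0 < s) (f : Fin s → Fin n) (hg : ¬ S.badf f) :
    S.Tf f ≤ 5 / 9 * (s : ℝ) ^ 3 := by
  unfold badf at hg
  push Not at hg
  obtain ⟨g1, g2⟩ := hg
  have hs' : (0 : ℝ) < s := by exact_mod_cast hs
  set Rf : Fin s → Fin s → Prop := fun a b => S.R (f a) (f b) with hRf
  have hO : Oriented Rf := fun a b h => S.R_asymm h
  have hC : C4Free Rf := by
    intro a b c d h1 h2 h3 h4
    by_contra hne
    push Not at hne
    exact g2 (a, b, c, d) ⟨h1, h2, h3, h4, hne.1, hne.2.1, hne.2.2.1, hne.2.2.2⟩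
  have hm := main_weighted Rf (fun _ => 1 / (s : ℝ)) hO hC (fun _ => by positivity)
    (by rw [sum_const, card_univ, Fintype.card_fin, nsmul_eq_mul]; field_simp)
  unfold Pool.Agent.H122R2.FdF.T at hm
  have h1 : ∑ a, ∑ b, ∑ c, 1 / (s : ℝ) * (1 / (s : ℝ)) * (1 / (s : ℝ)) *
      Pool.Agent.H122R2.FdF.H Rf a b c ≤ ∑ a : Fin s, ∑ b : Fin s, ∑ c : Fin s,
        1 / (s : ℝ) * (1 / (s : ℝ)) * (1 / (s : ℝ)) *
          (1 - if S.E (f a) (f b) (f c) then (1 : ℝ) else 0) := by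
    refine sum_le_sum fun a _ => sum_le_sum fun b _ => sum_le_sum fun c _ => ?_
    refine mul_le_mul_of_nonneg_left ?_ (by positivity)
    by_cases hE : S.E (f a) (f b) (f c)
    · rw [if_pos hE, sub_self]
      exact le_of_eq (S.H_zero hE (g1 (a, b, c)) (g1 (b, a, c)) (g1 (c, a, b)))
    · rw [if_neg hE, sub_zero]
      exact H_le_one Rf hO a b c
  have h2 : ∑ a : Fin s, ∑ b : Fin s, ∑ c : Fin s, 1 / (s : ℝ) * (1 / (s : ℝ)) * (1 / (s : ℝ)) *
          (1 - if S.E (f a) (f b) (f c) then (1 : ℝ) else 0) =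
      1 / (s : ℝ) * (1 / (s : ℝ)) * (1 / (s : ℝ)) * ((s : ℝ) ^ 3 - S.Tf f) := by
    have h3 : S.Tf f = ∑ a : Fin s, ∑ b : Fin s, ∑ c : Fin s,
        (if S.E (f a) (f b) (f c) then (1 : ℝ) else 0) := by
      unfold Tf
      rw [cnt_eq_sum, Fintype.sum_prod_type]
      refine sum_congr rfl fun a _ => ?_
      rw [Fintype.sum_prod_type]
    rw [h3]
    simp only [← mul_sum, sum_sub_distrib, sum_const, card_univ, Fintype.card_fin, nsmul_eq_mul]
    ring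
  rw [h2] at h1
  have h4 := hm.trans h1
  have h5 : 4 / 9 * (s : ℝ) ^ 3 ≤ (s : ℝ) ^ 3 - S.Tf f := by
    have h6 : 1 / (s : ℝ) * (1 / (s : ℝ)) * (1 / (s : ℝ)) * ((s : ℝ) ^ 3 - S.Tf f) =
        ((s : ℝ) ^ 3 - S.Tf f) / (s : ℝ) ^ 3 := by
      field_simp
    rw [h6, le_div_iff₀ (by positivity)] at h4
    exact h4
  linarith

theorem badT_ne {t : Fin n × Fin n × Fin n} (h : S.BadT t) : t.1 ≠ t.2.1 ∧ t.1 ≠ t.2.2 ∧
    t.2.1 ≠ t.2.2 := ⟨S.ne _ _ _ h.1, S.ne13 _ _ _ h.1, S.ne23 _ _ _ h.1⟩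

theorem C4_ne {t : Fin n × Fin n × Fin n × Fin n} (h : S.C4 t) : t.1 ≠ t.2.1 ∧ t.1 ≠ t.2.2.1 ∧
    t.1 ≠ t.2.2.2 ∧ t.2.1 ≠ t.2.2.1 ∧ t.2.1 ≠ t.2.2.2 ∧ t.2.2.1 ≠ t.2.2.2 := by
  obtain ⟨a, b, c, d⟩ := t
  obtain ⟨h1, h2, h3, h4, -⟩ := h
  dsimp only at *
  refine ⟨fun k => ?_, fun k => ?_, fun k => ?_, fun k => ?_, fun k => ?_, fun k => ?_⟩
  · exact S.R_ne h1 (by rw [k])
  · exact S.R_asymm h1 (k ▸ h2)
  · exact S.R_ne h4 (by rw [k])
  · exact S.R_ne h2 (by rw [k])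
  · exact S.R_asymm h2 (k ▸ h3)
  · exact S.R_ne h3 (by rw [k])

theorem badf_bound {s : ℕ} (hs : 4 ≤ s) {κ : ℝ} (h3 : cnt S.BadT ≤ κ * (n : ℝ) ^ 3)
    (h4 : cnt S.C4 ≤ κ * (n : ℝ) ^ 4) :
    cnt (fun f : Fin s → Fin n => S.badf f) ≤ κ * ((s : ℝ) ^ 3 + (s : ℝ) ^ 4) * (n : ℝ) ^ s := by
  have hκ3 : 0 ≤ κ * (n : ℝ) ^ 3 := (cnt_nonneg _).trans h3
  have hκ4 : 0 ≤ κ * (n : ℝ) ^ 4 := (cnt_nonneg _).trans h4
  have p3 : (n : ℝ) ^ s = (n : ℝ) ^ 3 * (n : ℝ) ^ (s - 3) := by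
    rw [← pow_add]
    congr 1
    omega
  have p4 : (n : ℝ) ^ s = (n : ℝ) ^ 4 * (n : ℝ) ^ (s - 4) := by
    rw [← pow_add]
    congr 1
    omega
  have a1 : cnt (fun f : Fin s → Fin n => ∃ t : Fin s × Fin s × Fin s,
      S.BadT (f t.1, f t.2.1, f t.2.2)) ≤ κ * (s : ℝ) ^ 3 * (n : ℝ) ^ s := by
    refine (exists_cnt (fun z : (Fin s × Fin s × Fin s) × (Fin s → Fin n) =>
      S.BadT (z.2 z.1.1, z.2 z.1.2.1, z.2 z.1.2.2))).trans ?_
    refine (cnt_fiber_le' (t := κ * (n : ℝ) ^ s) ?_).trans (le_of_eq ?_)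
    · rintro ⟨i, j, l⟩
      dsimp only
      by_cases hd : i ≠ j ∧ i ≠ l ∧ j ≠ l
      · rw [samp3 hd.1 hd.2.1 hd.2.2 S.BadT, Fintype.card_fin, p3, ← mul_assoc]
        exact mul_le_mul_of_nonneg_right h3 (by positivity)
      · refine (cnt_mono (q := fun _ => False) ?_).trans ?_
        · intro f hf
          have := S.badT_ne hf
          exact hd ⟨fun k => this.1 (by dsimp only; rw [k]), fun k => this.2.1 (by dsimp only; rw [k]),
            fun k => this.2.2 (by dsimp only; rw [k])⟩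
        · rw [cnt_false, p3, ← mul_assoc]
          positivity
    · simp only [Fintype.card_prod, Fintype.card_fin]
      push_cast
      ring
  have a2 : cnt (fun f : Fin s → Fin n => ∃ t : Fin s × Fin s × Fin s × Fin s,
      S.C4 (f t.1, f t.2.1, f t.2.2.1, f t.2.2.2)) ≤ κ * (s : ℝ) ^ 4 * (n : ℝ) ^ s := by
    refine (exists_cnt (fun z : (Fin s × Fin s × Fin s × Fin s) × (Fin s → Fin n) =>
      S.C4 (z.2 z.1.1, z.2 z.1.2.1, z.2 z.1.2.2.1, z.2 z.1.2.2.2))).trans ?_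
    refine (cnt_fiber_le' (t := κ * (n : ℝ) ^ s) ?_).trans (le_of_eq ?_)
    · rintro ⟨i, j, l, m⟩
      dsimp only
      by_cases hd : i ≠ j ∧ i ≠ l ∧ i ≠ m ∧ j ≠ l ∧ j ≠ m ∧ l ≠ m
      · rw [samp4 hd.1 hd.2.1 hd.2.2.1 hd.2.2.2.1 hd.2.2.2.2.1 hd.2.2.2.2.2 S.C4,
          Fintype.card_fin, p4, ← mul_assoc]
        exact mul_le_mul_of_nonneg_right h4 (by positivity)
      · refine (cnt_mono (q := fun _ => False) ?_).trans ?_
        · intro f hf
          have := S.C4_ne hf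
          exact hd ⟨fun k => this.1 (by dsimp only; rw [k]),
            fun k => this.2.1 (by dsimp only; rw [k]),
            fun k => this.2.2.1 (by dsimp only; rw [k]),
            fun k => this.2.2.2.1 (by dsimp only; rw [k]),
            fun k => this.2.2.2.2.1 (by dsimp only; rw [k]),
            fun k => this.2.2.2.2.2 (by dsimp only; rw [k])⟩
        · rw [cnt_false, p4, ← mul_assoc]
          positivity
    · simp only [Fintype.card_prod, Fintype.card_fin]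
      push_cast
      ring
  exact (cnt_or _ _).trans ((add_le_add a1 a2).trans (le_of_eq (by ring)))

/-- the number of ordered edges -/
def EE (z : Fin n × Fin n × Fin n) : Prop := S.E z.1 z.2.1 z.2.2

theorem dist_ge (s : ℕ) : (s : ℝ) ^ 3 - 3 * (s : ℝ) ^ 2 ≤
    cnt (fun t : Fin s × Fin s × Fin s => t.1 ≠ t.2.1 ∧ t.1 ≠ t.2.2 ∧ t.2.1 ≠ t.2.2) := by
  have h1 : cnt (fun _ : Fin s × Fin s × Fin s => True) ≤
      cnt (fun t : Fin s × Fin s × Fin s => (t.1 ≠ t.2.1 ∧ t.1 ≠ t.2.2 ∧ t.2.1 ≠ t.2.2) ∨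
        t.1 = t.2.1 ∨ t.1 = t.2.2 ∨ t.2.1 = t.2.2) := by
    refine cnt_mono fun t _ => ?_
    tauto
  have key : ∀ (p : Fin s × Fin s × Fin s → Prop) (f : Fin s × Fin s × Fin s → Fin s × Fin s),
      (∀ z z', p z → p z' → f z = f z' → z = z') → cnt p ≤ (s : ℝ) ^ 2 := by
    intro p f hf
    refine (cnt_map (q := fun _ : Fin s × Fin s => True) f (fun _ _ => trivial) hf).trans
      (le_of_eq ?_)
    rw [cnt_true]
    simp only [Fintype.card_prod, Fintype.card_fin]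
    push_cast
    ring
  have k1 := key (fun t => t.1 = t.2.1) (fun t => t.2) (by
    rintro ⟨x, y, z⟩ ⟨x', y', z'⟩ h1 h2 h
    simp only [Prod.mk.injEq] at h h1 h2 ⊢
    obtain ⟨rfl, rfl⟩ := h
    subst h1 h2
    simp)
  have k2 := key (fun t => t.1 = t.2.2) (fun t => t.2) (by
    rintro ⟨x, y, z⟩ ⟨x', y', z'⟩ h1 h2 h
    simp only [Prod.mk.injEq] at h h1 h2 ⊢
    obtain ⟨rfl, rfl⟩ := h
    subst h1 h2
    simp)
  have k3 := key (fun t => t.2.1 = t.2.2) (fun t => (t.1, t.2.1)) (by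
    rintro ⟨x, y, z⟩ ⟨x', y', z'⟩ h1 h2 h
    simp only [Prod.mk.injEq] at h h1 h2 ⊢
    obtain ⟨rfl, rfl⟩ := h
    subst h1 h2
    simp)
  have h2 := h1.trans ((cnt_or _ _).trans (add_le_add le_rfl ((cnt_or _ _).trans (add_le_add k1
    ((cnt_or _ _).trans (add_le_add k2 k3))))))
  rw [cnt_true] at h2
  simp only [Fintype.card_prod, Fintype.card_fin] at h2
  push_cast at h2
  linarith [h2, show (s : ℝ) * (s * s) = (s : ℝ) ^ 3 by ring]

theorem average {s : ℕ} (hs : 4 ≤ s) {κ : ℝ} (h3 : cnt S.BadT ≤ κ * (n : ℝ) ^ 3)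
    (h4 : cnt S.C4 ≤ κ * (n : ℝ) ^ 4) :
    ((s : ℝ) ^ 3 - 3 * (s : ℝ) ^ 2) * (cnt S.EE * (n : ℝ) ^ (s - 3)) ≤
      5 / 9 * (s : ℝ) ^ 3 * (n : ℝ) ^ s +
        (s : ℝ) ^ 3 * (κ * ((s : ℝ) ^ 3 + (s : ℝ) ^ 4) * (n : ℝ) ^ s) := by
  -- double counting
  have d1 : (cnt S.EE * (n : ℝ) ^ (s - 3)) *
      cnt (fun t : Fin s × Fin s × Fin s => t.1 ≠ t.2.1 ∧ t.1 ≠ t.2.2 ∧ t.2.1 ≠ t.2.2) ≤
      cnt (fun z : (Fin s × Fin s × Fin s) × (Fin s → Fin n) =>
        S.EE (z.2 z.1.1, z.2 z.1.2.1, z.2 z.1.2.2)) := by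
    refine cnt_fiber_ge ?_
    rintro ⟨i, j, l⟩ ⟨h1, h2, h3⟩
    dsimp only at *
    rw [samp3 h1 h2 h3 S.EE, Fintype.card_fin]
  have d2 : cnt (fun z : (Fin s × Fin s × Fin s) × (Fin s → Fin n) =>
        S.EE (z.2 z.1.1, z.2 z.1.2.1, z.2 z.1.2.2)) ≤
      cnt (fun z : (Fin s → Fin n) × (Fin s × Fin s × Fin s) =>
        S.EE (z.1 z.2.1, z.1 z.2.2.1, z.1 z.2.2.2)) := by
    refine cnt_map (q := fun z : (Fin s → Fin n) × (Fin s × Fin s × Fin s) =>
        S.EE (z.1 z.2.1, z.1 z.2.2.1, z.1 z.2.2.2)) (fun z => (z.2, z.1)) (fun z h => h) ?_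
    rintro ⟨t, f⟩ ⟨t', f'⟩ - - h
    simp only [Prod.mk.injEq] at h ⊢
    exact ⟨h.2, h.1⟩
  have d3 : cnt (fun z : (Fin s → Fin n) × (Fin s × Fin s × Fin s) =>
        S.EE (z.1 z.2.1, z.1 z.2.2.1, z.1 z.2.2.2)) = ∑ f : Fin s → Fin n, S.Tf f := by
    rw [cnt_fiber]
    rfl
  have d4 : ∑ f : Fin s → Fin n, S.Tf f ≤ ∑ f : Fin s → Fin n,
      (5 / 9 * (s : ℝ) ^ 3 + (s : ℝ) ^ 3 * (if S.badf f then (1 : ℝ) else 0)) := by
    refine sum_le_sum fun f _ => ?_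
    by_cases hb : S.badf f
    · rw [if_pos hb]
      have := S.Tf_le f
      have h0 : (0 : ℝ) ≤ (s : ℝ) ^ 3 := by positivity
      linarith
    · rw [if_neg hb]
      have := S.Tf_good (by omega) f hb
      linarith
  have d5 : ∑ f : Fin s → Fin n,
      (5 / 9 * (s : ℝ) ^ 3 + (s : ℝ) ^ 3 * (if S.badf f then (1 : ℝ) else 0)) =
      5 / 9 * (s : ℝ) ^ 3 * (n : ℝ) ^ s + (s : ℝ) ^ 3 * cnt (fun f : Fin s → Fin n => S.badf f) := by
    rw [sum_add_distrib, cnt_eq_sum, mul_sum univ _ ((s : ℝ) ^ 3), sum_const, card_univ,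
      Fintype.card_fun, Fintype.card_fin, Fintype.card_fin, nsmul_eq_mul]
    push_cast
    ring
  have d6 := S.badf_bound hs h3 h4
  have d7 := dist_ge s
  have d8 : 0 ≤ cnt S.EE * (n : ℝ) ^ (s - 3) := mul_nonneg (cnt_nonneg _) (by positivity)
  have d9 : (s : ℝ) ^ 3 * cnt (fun f : Fin s → Fin n => S.badf f) ≤
      (s : ℝ) ^ 3 * (κ * ((s : ℝ) ^ 3 + (s : ℝ) ^ 4) * (n : ℝ) ^ s) :=
    mul_le_mul_of_nonneg_left d6 (by positivity)
  calc ((s : ℝ) ^ 3 - 3 * (s : ℝ) ^ 2) * (cnt S.EE * (n : ℝ) ^ (s - 3))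
      ≤ cnt (fun t : Fin s × Fin s × Fin s => t.1 ≠ t.2.1 ∧ t.1 ≠ t.2.2 ∧ t.2.1 ≠ t.2.2) *
        (cnt S.EE * (n : ℝ) ^ (s - 3)) := mul_le_mul_of_nonneg_right d7 d8
    _ = (cnt S.EE * (n : ℝ) ^ (s - 3)) *
      cnt (fun t : Fin s × Fin s × Fin s => t.1 ≠ t.2.1 ∧ t.1 ≠ t.2.2 ∧ t.2.1 ≠ t.2.2) := by ring
    _ ≤ _ := d1
    _ ≤ _ := d2
    _ = _ := d3
    _ ≤ _ := d4
    _ = _ := d5
    _ ≤ _ := by linarith

end Sys

end Pool.Agent.Run7.h122.TT
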