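import Pool.Agent.Run7.h122.Both
import Pool.Agent.Run7.h122.Samp

/-! Choice of the constants. -/

set_option autoImplicit false
open Finset
open scoped Classical

namespace Pool.Agent.Run7.h122.TT

theorem pow_cancel {x y : ℝ} {k : ℕ} (hk : k ≠ 0) (hy : 0 ≤ y) (h : x ^ k ≤ y ^ k) : x ≤ y :=
  le_of_pow_le_pow_left₀ hk hy h

/-- the constants -/
theorem consts (r : ℕ) {κ : ℝ} (hκ : 0 < κ) : ∃ μ ε τ β : ℝ, 0 < μ ∧ 0 < ε ∧ 0 < τ ∧ 0 < β ∧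
    40 * μ ≤ κ ∧ 16 * ε ≤ μ ∧ 16 * (ε * r) ≤ μ ∧ 16 * (ε * (r : ℝ) ^ 3) ≤ μ ^ 4 ∧
    2 * τ ≤ ε ^ 2 * μ ^ 2 ∧ 4 * β ≤ τ ∧ 4 * β ≤ ε ∧ 4 * β ≤ ε ^ 4 * τ ^ 2 ∧ 4 * (β * r) ≤ μ ∧
    β ≤ 1 := by
  set ρ : ℝ := (r : ℝ) + 1 with hρ
  have hr0 : (0 : ℝ) ≤ r := Nat.cast_nonneg r
  have hρ1 : 1 ≤ ρ := by linarith
  have hρ0 : 0 < ρ := by linarith
  set μ : ℝ := min κ 1 / 40 with hμ
  have hmin : 0 < min κ 1 := lt_min hκ one_pos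
  have hμ0 : 0 < μ := by positivity
  have hμκ : 40 * μ ≤ κ := by
    rw [hμ]
    have := min_le_left κ 1
    linarith
  have hμ1 : μ ≤ 1 := by
    rw [hμ]
    have := min_le_right κ 1
    linarith
  have hρ3 : 1 ≤ ρ ^ 3 := one_le_pow₀ hρ1
  obtain ⟨ε, hε⟩ : ∃ ε : ℝ, ε = μ ^ 4 / (16 * ρ ^ 3) := ⟨_, rfl⟩
  have hε0 : 0 < ε := by rw [hε]; positivity
  have hε_eq : ε * (16 * ρ ^ 3) = μ ^ 4 := by
    rw [hε]
    field_simp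
  have hμ4 : μ ^ 4 ≤ μ := by
    calc μ ^ 4 ≤ μ ^ 1 := pow_le_pow_of_le_one hμ0.le hμ1 (by norm_num)
      _ = μ := pow_one μ
  have hρr : (r : ℝ) ≤ ρ ^ 3 := by
    have : ρ ≤ ρ ^ 3 := by
      calc ρ = ρ ^ 1 := (pow_one ρ).symm
        _ ≤ ρ ^ 3 := pow_le_pow_right₀ hρ1 (by norm_num)
    linarith
  have hr3 : (r : ℝ) ^ 3 ≤ ρ ^ 3 := pow_le_pow_left₀ hr0 (by linarith) 3
  have hεμ : 16 * ε ≤ μ := by
    have : ε * 1 ≤ ε * ρ ^ 3 := mul_le_mul_of_nonneg_left hρ3 hε0.le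
    linarith
  have hεr : 16 * (ε * r) ≤ μ := by
    have : ε * r ≤ ε * ρ ^ 3 := mul_le_mul_of_nonneg_left hρr hε0.le
    linarith
  have hεr3 : 16 * (ε * (r : ℝ) ^ 3) ≤ μ ^ 4 := by
    have : ε * (r : ℝ) ^ 3 ≤ ε * ρ ^ 3 := mul_le_mul_of_nonneg_left hr3 hε0.le
    linarith
  have hε1 : ε ≤ 1 := by linarith
  obtain ⟨τ, hτ⟩ : ∃ τ : ℝ, τ = ε ^ 2 * μ ^ 2 / 2 := ⟨_, rfl⟩
  have hτ0 : 0 < τ := by rw [hτ]; positivity
  have hτ_eq : 2 * τ = ε ^ 2 * μ ^ 2 := by rw [hτ]; ring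
  have hε2 : ε ^ 2 ≤ 1 := pow_le_one₀ hε0.le hε1
  have hμ2 : μ ^ 2 ≤ 1 := pow_le_one₀ hμ0.le hμ1
  have hτ1 : τ ≤ 1 := by
    have : ε ^ 2 * μ ^ 2 ≤ 1 * 1 := mul_le_mul hε2 hμ2 (by positivity) (by norm_num)
    linarith
  obtain ⟨β, hβ⟩ : ∃ β : ℝ, β = ε ^ 4 * τ ^ 2 / (4 * ρ) := ⟨_, rfl⟩
  have hβ0 : 0 < β := by rw [hβ]; positivity
  have hβ_eq : β * (4 * ρ) = ε ^ 4 * τ ^ 2 := by
    rw [hβ]
    field_simp
  have hβρ : 4 * β ≤ ε ^ 4 * τ ^ 2 := by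
    have : β * 1 ≤ β * ρ := mul_le_mul_of_nonneg_left hρ1 hβ0.le
    linarith
  have h4 : ε ^ 4 ≤ 1 := pow_le_one₀ hε0.le hε1
  have h4' : ε ^ 4 ≤ ε := by
    calc ε ^ 4 ≤ ε ^ 1 := pow_le_pow_of_le_one hε0.le hε1 (by norm_num)
      _ = ε := pow_one ε
  have ht2 : τ ^ 2 ≤ 1 := pow_le_one₀ hτ0.le hτ1
  have ht2' : τ ^ 2 ≤ τ := by
    calc τ ^ 2 ≤ τ ^ 1 := pow_le_pow_of_le_one hτ0.le hτ1 (by norm_num)
      _ = τ := pow_one τ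
  have hβτ : ε ^ 4 * τ ^ 2 ≤ τ := by
    calc ε ^ 4 * τ ^ 2 ≤ 1 * τ := mul_le_mul h4 ht2' (by positivity) (by norm_num)
      _ = τ := one_mul τ
  have hβε : ε ^ 4 * τ ^ 2 ≤ ε := by
    calc ε ^ 4 * τ ^ 2 ≤ ε * 1 := mul_le_mul h4' ht2 (by positivity) hε0.le
      _ = ε := mul_one ε
  have hβr : 4 * (β * r) ≤ μ := by
    have : β * r ≤ β * ρ := mul_le_mul_of_nonneg_left (by linarith) hβ0.le
    linarith
  exact ⟨μ, ε, τ, β, hμ0, hε0, hτ0, hβ0, hμκ, hεμ, hεr, hεr3, hτ_eq.le, by linarith, by linarith,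
    hβρ, hβr, by linarith⟩

theorem structure_p3 (r : ℕ) {κ : ℝ} (hκ : 0 < κ) : ∃ β : ℝ, 0 < β ∧ β ≤ κ ∧ β ≤ 1 ∧ ∀ n : ℕ,
    1 ≤ β * (n : ℝ) → ∀ S : Sys n r, cnt S.Inn ≤ β * (n : ℝ) ^ 3 → cnt S.Emp ≤ β * (n : ℝ) ^ 4 →
      cnt S.P3 ≤ β * (n : ℝ) ^ 4 →
      cnt S.BadT ≤ κ * (n : ℝ) ^ 3 ∧ cnt S.C4 ≤ κ * (n : ℝ) ^ 4 := by
  obtain ⟨μ, ε, τ, β, hμ0, hε0, hτ0, hβ0, hμκ, hεμ, hεr, hεr3, hτε, hβτ, hβε, hβ4, hβr, hβ1⟩ :=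
    consts r hκ
  have hr0 : (0 : ℝ) ≤ r := Nat.cast_nonneg r
  refine ⟨β, hβ0, by linarith, hβ1, fun n hn S hI hE hP => ?_⟩
  have hn0 : (0 : ℝ) < n := by
    by_contra h
    push Not at h
    nlinarith
  obtain ⟨N, hN⟩ : ∃ N : ℝ, N = (n : ℝ) := ⟨_, rfl⟩
  rw [← hN] at hn hI hE hP hn0 ⊢
  have hN3 : N ^ 3 ≤ β * N ^ 4 := by
    calc N ^ 3 = 1 * N ^ 3 := (one_mul _).symm
      _ ≤ β * N * N ^ 3 := mul_le_mul_of_nonneg_right hn (by positivity)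
      _ = β * N ^ 4 := by ring
  have hN2 : N ^ 2 ≤ β * N ^ 3 := by
    calc N ^ 2 = 1 * N ^ 2 := (one_mul _).symm
      _ ≤ β * N * N ^ 2 := mul_le_mul_of_nonneg_right hn (by positivity)
      _ = β * N ^ 3 := by ring
  have hN5 : N ^ 5 ≤ β * N ^ 6 := by
    calc N ^ 5 = 1 * N ^ 5 := (one_mul _).symm
      _ ≤ β * N * N ^ 5 := mul_le_mul_of_nonneg_right hn (by positivity)
      _ = β * N ^ 6 := by ring
  obtain ⟨e, he⟩ : ∃ e : ℝ, e = ε * N := ⟨_, rfl⟩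
  have he0 : 0 < e := by rw [he]; positivity
  have hN3p : 0 < N ^ 3 := by positivity
  have hN4p : 0 < N ^ 4 := by positivity
  -- step 1
  have hT : cnt (S.MT e) ≤ τ * N ^ 3 := by
    have h1 := S.mt_bound he0.le
    rw [← hN] at h1
    have h2 : N ^ 4 * (N ^ 5 + (2 * cnt S.P3 + cnt S.Emp) * N ^ 2) ≤ (ε ^ 2 * τ * N ^ 5) ^ 2 := by
      have h3 : (2 * cnt S.P3 + cnt S.Emp) * N ^ 2 ≤ (3 * (β * N ^ 4)) * N ^ 2 :=
        mul_le_mul_of_nonneg_right (by linarith) (by positivity)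
      have h4 : N ^ 5 + (2 * cnt S.P3 + cnt S.Emp) * N ^ 2 ≤ 4 * β * N ^ 6 := by
        have e1 : (3 * (β * N ^ 4)) * N ^ 2 = 3 * (β * N ^ 6) := by ring
        linarith
      calc N ^ 4 * (N ^ 5 + (2 * cnt S.P3 + cnt S.Emp) * N ^ 2)
          ≤ N ^ 4 * (4 * β * N ^ 6) := mul_le_mul_of_nonneg_left h4 hN4p.le
        _ = 4 * β * N ^ 10 := by ring
        _ ≤ (ε ^ 4 * τ ^ 2) * N ^ 10 := mul_le_mul_of_nonneg_right hβ4 (by positivity)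
        _ = (ε ^ 2 * τ * N ^ 5) ^ 2 := by ring
    have h4 := pow_cancel two_ne_zero (by positivity) (h1.trans h2)
    have h5 : e ^ 2 * cnt (S.MT e) ≤ e ^ 2 * (τ * N ^ 3) := by
      refine h4.trans (le_of_eq ?_)
      rw [he]
      ring
    exact le_of_mul_le_mul_left h5 (by positivity)
  -- step 2
  have hM : S.MM e ≤ μ * N ^ 2 := by
    have h1 := S.mm_bound he0.le
    rw [← hN] at h1
    have h2 : N ^ 2 * (N ^ 3 + cnt S.P3 + cnt (S.MT e) * N) ≤ (ε * μ * N ^ 3) ^ 2 := by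
      have h3 : cnt (S.MT e) * N ≤ τ * N ^ 3 * N := mul_le_mul_of_nonneg_right hT hn0.le
      have h4 : N ^ 3 + cnt S.P3 + cnt (S.MT e) * N ≤ (2 * τ) * N ^ 4 := by
        have e1 : τ * N ^ 3 * N = τ * N ^ 4 := by ring
        have h5 : 4 * β * N ^ 4 ≤ τ * N ^ 4 := mul_le_mul_of_nonneg_right hβτ hN4p.le
        have h6 : 0 < β * N ^ 4 := by positivity
        linarith
      calc N ^ 2 * (N ^ 3 + cnt S.P3 + cnt (S.MT e) * N)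
          ≤ N ^ 2 * ((2 * τ) * N ^ 4) := mul_le_mul_of_nonneg_left h4 (by positivity)
        _ = (2 * τ) * N ^ 6 := by ring
        _ ≤ (ε ^ 2 * μ ^ 2) * N ^ 6 := mul_le_mul_of_nonneg_right hτε (by positivity)
        _ = (ε * μ * N ^ 3) ^ 2 := by ring
    have h4 := pow_cancel two_ne_zero (by positivity) (h1.trans h2)
    have h5 : e * S.MM e ≤ e * (μ * N ^ 2) := by
      refine h4.trans (le_of_eq ?_)
      rw [he]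
      ring
    exact le_of_mul_le_mul_left h5 he0
  -- step 3
  have hNN : S.NN e ≤ μ * N ^ 2 := by
    have h1 := S.NN_bound he0.le
    rw [← hN] at h1
    refine pow_cancel four_ne_zero (by positivity) (h1.trans ?_)
    have h2 : 2 * N ^ 3 + 4 * (e * N ^ 3) ≤ 5 * (ε * N ^ 4) := by
      have e1 : e * N ^ 3 = ε * N ^ 4 := by rw [he]; ring
      have h4 : 4 * β * N ^ 4 ≤ ε * N ^ 4 := mul_le_mul_of_nonneg_right hβε hN4p.le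
      rw [e1]
      linarith [mul_pos hβ0 hN4p]
    calc N ^ 4 * (r : ℝ) ^ 3 * (2 * N ^ 3 + 4 * (e * N ^ 3))
        ≤ N ^ 4 * (r : ℝ) ^ 3 * (5 * (ε * N ^ 4)) := mul_le_mul_of_nonneg_left h2 (by positivity)
      _ = 5 * (ε * (r : ℝ) ^ 3) * N ^ 8 := by ring
      _ ≤ μ ^ 4 * N ^ 8 := by
          refine mul_le_mul_of_nonneg_right ?_ (by positivity)
          have : 0 ≤ ε * (r : ℝ) ^ 3 := by positivity
          linarith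
      _ = (μ * N ^ 2) ^ 4 := by ring
  have hMn : S.MM e * N ≤ μ * N ^ 3 := by
    calc S.MM e * N ≤ μ * N ^ 2 * N := mul_le_mul_of_nonneg_right hM hn0.le
      _ = μ * N ^ 3 := by ring
  have hNNn : S.NN e * N ≤ μ * N ^ 3 := by
    calc S.NN e * N ≤ μ * N ^ 2 * N := mul_le_mul_of_nonneg_right hNN hn0.le
      _ = μ * N ^ 3 := by ring
  constructor
  · have h1 := S.BadT_bound' he0.le
    rw [← hN] at h1
    have h2 : (2 * e + 1) * (N ^ 2 * r) ≤ μ * N ^ 3 := by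
      have e1 : (2 * e + 1) * (N ^ 2 * r) = 2 * (ε * r) * N ^ 3 + r * N ^ 2 := by rw [he]; ring
      have h3 : (r : ℝ) * N ^ 2 ≤ r * (β * N ^ 3) := mul_le_mul_of_nonneg_left hN2 hr0
      have h4 : r * (β * N ^ 3) = (β * r) * N ^ 3 := by ring
      have h5 : (2 * (ε * r) + β * r) * N ^ 3 ≤ μ * N ^ 3 := by
        refine mul_le_mul_of_nonneg_right ?_ hN3p.le
        linarith
      rw [e1]
      linarith
    have h3 : β * N ^ 3 ≤ μ * N ^ 3 := mul_le_mul_of_nonneg_right (by linarith) hN3p.le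
    have h5 : 40 * μ * N ^ 3 ≤ κ * N ^ 3 := mul_le_mul_of_nonneg_right hμκ hN3p.le
    have h6 : 0 < μ * N ^ 3 := by positivity
    linarith
  · have h1 := S.C4_bound
    have h2 := S.D2_bound he0.le
    rw [← hN] at h1 h2
    have e1 : e * N ^ 2 = ε * N ^ 3 := by rw [he]; ring
    rw [e1] at h2
    have h4 : ε * N ^ 3 ≤ μ * N ^ 3 := mul_le_mul_of_nonneg_right (by linarith) hN3p.le
    have h3 : cnt S.D2 ≤ 4 * (μ * N ^ 3) := by linarith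
    have h5 : cnt S.D2 * N ≤ 4 * (μ * N ^ 3) * N := mul_le_mul_of_nonneg_right h3 hn0.le
    have h6 : 4 * (μ * N ^ 3) * N = 4 * μ * N ^ 4 := by ring
    have h7 : 40 * μ * N ^ 4 ≤ κ * N ^ 4 := mul_le_mul_of_nonneg_right hμκ hN4p.le
    have h8 : 0 < μ * N ^ 4 := by positivity
    linarith

/-- the disjunctive hypothesis -/
def Sys.Hyp {n r : ℕ} (S : Sys n r) (β : ℝ) : Prop :=
  cnt S.Inn ≤ β * (n : ℝ) ^ 3 ∧ cnt S.Emp ≤ β * (n : ℝ) ^ 4 ∧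
    (cnt S.P3 ≤ β * (n : ℝ) ^ 4 ∨ cnt S.Bad ≤ β * (n : ℝ) ^ 4)

theorem structure_thm (r : ℕ) {κ : ℝ} (hκ : 0 < κ) : ∃ δ : ℝ, 0 < δ ∧ δ ≤ κ ∧ ∀ n : ℕ,
    1 ≤ δ * (n : ℝ) → ∀ S : Sys n r, S.Hyp δ →
      cnt S.BadT ≤ κ * (n : ℝ) ^ 3 ∧ cnt S.C4 ≤ κ * (n : ℝ) ^ 4 := by
  obtain ⟨β, hβ0, hβκ, hβ1, hβ⟩ := structure_p3 r hκ
  have hr0 : (0 : ℝ) ≤ r := Nat.cast_nonneg r
  obtain ⟨δ, hδ⟩ : ∃ δ : ℝ, δ = β ^ 2 / (3 * ((r : ℝ) + 1)) := ⟨_, rfl⟩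
  have hδ0 : 0 < δ := by rw [hδ]; positivity
  have hδ_eq : δ * (3 * ((r : ℝ) + 1)) = β ^ 2 := by
    rw [hδ]
    field_simp
  have hβ2 : β ^ 2 ≤ β := by
    calc β ^ 2 ≤ β ^ 1 := pow_le_pow_of_le_one hβ0.le hβ1 (by norm_num)
      _ = β := pow_one β
  have hδr : 0 ≤ δ * r := mul_nonneg hδ0.le hr0
  have hδβ : δ ≤ β := by linarith
  refine ⟨δ, hδ0, hδβ.trans hβκ, fun n hn S hS => ?_⟩
  obtain ⟨hI, hE, hP⟩ := hS
  have hn0 : (0 : ℝ) ≤ n := Nat.cast_nonneg n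
  have hle : ∀ k : ℕ, δ * (n : ℝ) ^ k ≤ β * (n : ℝ) ^ k := fun k =>
    mul_le_mul_of_nonneg_right hδβ (by positivity)
  refine hβ n (hn.trans (by simpa using hle 1)) S (hI.trans (hle 3)) (hE.trans (hle 4)) ?_
  rcases hP with hP | hP
  · exact hP.trans (hle 4)
  · refine pow_cancel two_ne_zero (by positivity) (S.p3_bound.trans ?_)
    have h4 : (n : ℝ) ^ 4 ≤ δ * (n : ℝ) ^ 5 := by
      calc (n : ℝ) ^ 4 = 1 * (n : ℝ) ^ 4 := (one_mul _).symm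
        _ ≤ δ * n * (n : ℝ) ^ 4 := mul_le_mul_of_nonneg_right hn (by positivity)
        _ = δ * (n : ℝ) ^ 5 := by ring
    have h5 : cnt S.Bad * (n : ℝ) ≤ δ * (n : ℝ) ^ 4 * n := mul_le_mul_of_nonneg_right hP hn0
    have h6 : (n : ℝ) ^ 4 + 2 * (cnt S.Bad * (n : ℝ)) ≤ 3 * δ * (n : ℝ) ^ 5 := by
      have e1 : δ * (n : ℝ) ^ 4 * n = δ * (n : ℝ) ^ 5 := by ring
      linarith
    calc (n : ℝ) ^ 3 * r * ((n : ℝ) ^ 4 + 2 * (cnt S.Bad * (n : ℝ)))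
        ≤ (n : ℝ) ^ 3 * r * (3 * δ * (n : ℝ) ^ 5) := mul_le_mul_of_nonneg_left h6 (by positivity)
      _ = (3 * (δ * r)) * (n : ℝ) ^ 8 := by ring
      _ ≤ β ^ 2 * (n : ℝ) ^ 8 := mul_le_mul_of_nonneg_right (by linarith) (by positivity)
      _ = (β * (n : ℝ) ^ 4) ^ 2 := by ring

theorem density_thm (r : ℕ) {η : ℝ} (hη : 0 < η) : ∃ β : ℝ, 0 < β ∧ β ≤ η ∧ ∀ n : ℕ,
    1 ≤ β * (n : ℝ) → ∀ S : Sys n r, S.Hyp β →
      cnt S.EE ≤ (5 / 9 + η) * (n : ℝ) ^ 3 ∧ cnt S.BadT ≤ η * (n : ℝ) ^ 3 ∧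
        cnt S.C4 ≤ η * (n : ℝ) ^ 4 := by
  obtain ⟨s, hs1⟩ := exists_nat_gt (6 / η + 4)
  have hs4 : (4 : ℝ) < s := by
    have : 0 < 6 / η := by positivity
    linarith
  have hs : 4 ≤ s := by
    have : (4 : ℕ) < s := by exact_mod_cast hs4
    omega
  have hsη : 3 ≤ η / 2 * s := by
    have h1 : 6 / η < s := by linarith
    rw [div_lt_iff₀ hη] at h1
    linarith
  have hs0 : (0 : ℝ) < s := by linarith
  obtain ⟨K, hK⟩ : ∃ K : ℝ, K = (s : ℝ) ^ 3 + (s : ℝ) ^ 4 := ⟨_, rfl⟩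
  have hK1 : 1 ≤ K := by
    have h1 : (1 : ℝ) ≤ (s : ℝ) ^ 3 := one_le_pow₀ (by linarith)
    have h2 : (0 : ℝ) ≤ (s : ℝ) ^ 4 := by positivity
    linarith
  have hK0 : 0 < K := by linarith
  have hκ : 0 < η / (2 * K) := by positivity
  obtain ⟨β, hβ0, hβκ, hβ⟩ := structure_thm r hκ
  have hκη : η / (2 * K) ≤ η := by
    rw [div_le_iff₀ (by positivity)]
    nlinarith
  refine ⟨β, hβ0, hβκ.trans hκη, fun n hn S hS => ?_⟩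
  obtain ⟨h3, h4⟩ := hβ n hn S hS
  have hn0 : (0 : ℝ) < n := by
    by_contra h
    push Not at h
    nlinarith
  refine ⟨?_, h3.trans (mul_le_mul_of_nonneg_right hκη (by positivity)),
    h4.trans (mul_le_mul_of_nonneg_right hκη (by positivity))⟩
  have hav := S.average hs h3 h4
  have hp : (n : ℝ) ^ s = (n : ℝ) ^ 3 * (n : ℝ) ^ (s - 3) := by
    rw [← pow_add]
    congr 1
    omega
  have hq : 0 < (n : ℝ) ^ (s - 3) := by positivity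
  have hKη : η / (2 * K) * K = η / 2 := by
    field_simp
  -- divide by `n^(s-3)`
  have h5 : ((s : ℝ) ^ 3 - 3 * (s : ℝ) ^ 2) * cnt S.EE ≤
      (5 / 9 + η / 2) * (s : ℝ) ^ 3 * (n : ℝ) ^ 3 := by
    have h6 : (((s : ℝ) ^ 3 - 3 * (s : ℝ) ^ 2) * cnt S.EE) * (n : ℝ) ^ (s - 3) ≤
        ((5 / 9 + η / 2) * (s : ℝ) ^ 3 * (n : ℝ) ^ 3) * (n : ℝ) ^ (s - 3) := by
      calc (((s : ℝ) ^ 3 - 3 * (s : ℝ) ^ 2) * cnt S.EE) * (n : ℝ) ^ (s - 3)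
          = ((s : ℝ) ^ 3 - 3 * (s : ℝ) ^ 2) * (cnt S.EE * (n : ℝ) ^ (s - 3)) := by ring
        _ ≤ _ := hav
        _ = (5 / 9 + η / (2 * K) * K) * (s : ℝ) ^ 3 * (n : ℝ) ^ s := by rw [hK]; ring
        _ = _ := by rw [hKη, hp]; ring
    exact le_of_mul_le_mul_right h6 hq
  have h7 : cnt S.EE ≤ (n : ℝ) ^ 3 := by
    refine (cnt_le_card _).trans (le_of_eq ?_)
    simp only [Fintype.card_prod, Fintype.card_fin]
    push_cast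
    ring
  have h8 : (s : ℝ) ^ 3 * cnt S.EE ≤ (s : ℝ) ^ 3 * ((5 / 9 + η) * (n : ℝ) ^ 3) := by
    have h9 : 3 * (s : ℝ) ^ 2 * cnt S.EE ≤ η / 2 * (s : ℝ) ^ 3 * (n : ℝ) ^ 3 := by
      calc 3 * (s : ℝ) ^ 2 * cnt S.EE ≤ 3 * (s : ℝ) ^ 2 * (n : ℝ) ^ 3 :=
            mul_le_mul_of_nonneg_left h7 (by positivity)
        _ ≤ (η / 2 * s) * (s : ℝ) ^ 2 * (n : ℝ) ^ 3 := by
            refine mul_le_mul_of_nonneg_right ?_ (by positivity)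
            exact mul_le_mul_of_nonneg_right hsη (by positivity)
        _ = _ := by ring
    linarith [h5, h9, show ((s : ℝ) ^ 3 - 3 * (s : ℝ) ^ 2) * cnt S.EE =
      (s : ℝ) ^ 3 * cnt S.EE - 3 * (s : ℝ) ^ 2 * cnt S.EE by ring,
      show (5 / 9 + η / 2) * (s : ℝ) ^ 3 * (n : ℝ) ^ 3 + η / 2 * (s : ℝ) ^ 3 * (n : ℝ) ^ 3 =
        (s : ℝ) ^ 3 * ((5 / 9 + η) * (n : ℝ) ^ 3) by ring]
  exact le_of_mul_le_mul_left h8 (by positivity)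

end Pool.Agent.Run7.h122.TT
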