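import Pool.Agent.Run7.h122.Sys

/-! The orientation of the pairs between different classes, and the count of bad triples and of
induced oriented 4-cycles. -/

set_option autoImplicit false
open Finset
open scoped Classical

namespace Pool.Agent.Run7.h122.TT

theorem cnt_false {α : Type*} [Fintype α] : cnt (fun _ : α => False) = 0 := by
  simp [cnt]

theorem cnt_eq_one {α : Type*} [Fintype α] (a : α) : cnt (fun x : α => x = a) = 1 := by
  unfold cnt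
  have : (univ.filter fun x : α => x = a) = {a} := by
    ext x
    simp
  simp [this]

namespace Sys
variable {n r : ℕ} (S : Sys n r) (e : ℝ)

def NP (w x : Fin n) : Prop := S.c w ≠ S.c x ∧ S.a w x < e ∧ S.a x w < e
def MP (w x : Fin n) : Prop := S.c w ≠ S.c x ∧ e ≤ S.a w x ∧ e ≤ S.a x w

def NPp (z : Fin n × Fin n) : Prop := S.NP e z.1 z.2
def MPp (z : Fin n × Fin n) : Prop := S.MP e z.1 z.2

noncomputable def NN : ℝ := cnt (S.NPp e)
noncomputable def MM : ℝ := cnt (S.MPp e)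

theorem pair3 (P : Fin n × Fin n → Prop) (f : Fin n × Fin n × Fin n → (Fin n × Fin n) × Fin n)
    (hf : ∀ z z', f z = f z' → z = z') : cnt (fun z => P (f z).1) ≤ cnt P * (n : ℝ) := by
  refine (cnt_map (q := fun z : (Fin n × Fin n) × Fin n => P z.1) f
    (fun z h => h) (fun a b _ _ h => hf a b h)).trans (le_of_eq ?_)
  rw [cnt_prod, Fintype.card_fin]

def Low (z : (Fin n × Fin n) × Fin n) : Prop := S.a z.1.1 z.1.2 < e ∧ S.nb z.1.1 z.1.2 z.2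

variable {e}

theorem low_bound (he : 0 ≤ e) : cnt (S.Low e) ≤ e * (n : ℝ) ^ 2 := by
  refine (cnt_fiber_le' (t := e) ?_).trans (le_of_eq ?_)
  · intro q
    by_cases h : S.a q.1 q.2 < e
    · exact (cnt_mono (q := fun y => S.nb q.1 q.2 y) (fun y hy => hy.2)).trans h.le
    · refine (cnt_mono (q := fun _ => False) (fun y hy => h hy.1)).trans ?_
      rw [cnt_false]
      exact he
  · simp only [Fintype.card_prod, Fintype.card_fin]
    push_cast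
    ring

theorem low4 (he : 0 ≤ e) {p : Fin n × Fin n × Fin n × Fin n → Prop}
    (f : Fin n × Fin n × Fin n × Fin n → ((Fin n × Fin n) × Fin n) × Fin n)
    (hf : ∀ z, p z → S.Low e (f z).1) (hi : ∀ z z', f z = f z' → z = z') :
    cnt p ≤ e * (n : ℝ) ^ 3 := by
  refine (cnt_map (q := fun z : ((Fin n × Fin n) × Fin n) × Fin n => S.Low e z.1) f hf
    (fun a b _ _ h => hi a b h)).trans ?_
  rw [cnt_prod, Fintype.card_fin]
  refine (mul_le_mul_of_nonneg_right (S.low_bound he) (Nat.cast_nonneg n)).trans (le_of_eq ?_)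
  ring

theorem d1h4 {p : Fin n × Fin n × Fin n × Fin n → Prop}
    (f : Fin n × Fin n × Fin n × Fin n → (Fin n × Fin n × Fin n) × Fin n)
    (hf : ∀ z, p z → S.D1h e (f z).1) (hi : ∀ z z', f z = f z' → z = z') :
    cnt p ≤ cnt (S.D1h e) * (n : ℝ) := by
  refine (cnt_map (q := fun z : (Fin n × Fin n × Fin n) × Fin n => S.D1h e z.1) f hf
    (fun a b _ _ h => hi a b h)).trans ?_
  rw [cnt_prod, Fintype.card_fin]

theorem diag1 : cnt (fun z : Fin n × Fin n × Fin n × Fin n => z.1 = z.2.1) ≤ (n : ℝ) ^ 3 := by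
  have : cnt (fun z : Fin n × Fin n × Fin n × Fin n => z.1 = z.2.1) ≤
      cnt (fun _ : Fin n × Fin n × Fin n => True) := by
    refine cnt_map (fun z => (z.1, z.2.2)) (fun _ _ => trivial) ?_
    rintro ⟨x, x', w, w'⟩ ⟨u, u', t, t'⟩ h1 h2 h
    simp only [Prod.mk.injEq] at h h1 h2 ⊢
    obtain ⟨rfl, rfl, rfl⟩ := h
    subst h1 h2
    simp
  refine this.trans (le_of_eq ?_)
  rw [cnt_true]
  simp only [Fintype.card_prod, Fintype.card_fin]
  push_cast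
  ring

theorem diag2 : cnt (fun z : Fin n × Fin n × Fin n × Fin n => z.2.2.1 = z.2.2.2) ≤
    (n : ℝ) ^ 3 := by
  have : cnt (fun z : Fin n × Fin n × Fin n × Fin n => z.2.2.1 = z.2.2.2) ≤
      cnt (fun _ : Fin n × Fin n × Fin n => True) := by
    refine cnt_map (fun z => (z.1, z.2.1, z.2.2.1)) (fun _ _ => trivial) ?_
    rintro ⟨x, x', w, w'⟩ ⟨u, u', t, t'⟩ h1 h2 h
    simp only [Prod.mk.injEq] at h h1 h2 ⊢
    obtain ⟨rfl, rfl, rfl⟩ := h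
    subst h1 h2
    simp
  refine this.trans (le_of_eq ?_)
  rw [cnt_true]
  simp only [Fintype.card_prod, Fintype.card_fin]
  push_cast
  ring

theorem NN_bound (he : 0 ≤ e) :
    (S.NN e) ^ 4 ≤ (n : ℝ) ^ 4 * (r : ℝ) ^ 3 * (2 * (n : ℝ) ^ 3 + 4 * (e * (n : ℝ) ^ 3)) := by
  refine (c4_lower S.c (S.NP e)).trans (mul_le_mul_of_nonneg_left ?_ (by positivity))
  have h1 := diag1 (n := n)
  have h2 := diag2 (n := n)
  have h3 := S.low4 he (p := fun z => S.Low e ((z.2.2.1, z.1), z.2.1))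
    (fun z => (((z.2.2.1, z.1), z.2.1), z.2.2.2)) (fun z h => h)
    (by rintro ⟨x, x', w, w'⟩ ⟨u, u', t, t'⟩ h; simp only [Prod.mk.injEq] at h ⊢; tauto)
  have h4 := S.low4 he (p := fun z => S.Low e ((z.2.2.2, z.1), z.2.1))
    (fun z => (((z.2.2.2, z.1), z.2.1), z.2.2.1)) (fun z h => h)
    (by rintro ⟨x, x', w, w'⟩ ⟨u, u', t, t'⟩ h; simp only [Prod.mk.injEq] at h ⊢; tauto)
  have h5 := S.low4 he (p := fun z => S.Low e ((z.1, z.2.2.1), z.2.2.2))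
    (fun z => (((z.1, z.2.2.1), z.2.2.2), z.2.1)) (fun z h => h)
    (by rintro ⟨x, x', w, w'⟩ ⟨u, u', t, t'⟩ h; simp only [Prod.mk.injEq] at h ⊢; tauto)
  have h6 := S.low4 he (p := fun z => S.Low e ((z.2.1, z.2.2.1), z.2.2.2))
    (fun z => (((z.2.1, z.2.2.1), z.2.2.2), z.1)) (fun z h => h)
    (by rintro ⟨x, x', w, w'⟩ ⟨u, u', t, t'⟩ h; simp only [Prod.mk.injEq] at h ⊢; tauto)
  refine (cnt_mono ?_).trans ((cnt_or _ _).trans (add_le_add h1 ((cnt_or _ _).trans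
    (add_le_add h2 ((cnt_or _ _).trans (add_le_add h3 ((cnt_or _ _).trans
      (add_le_add h4 ((cnt_or _ _).trans (add_le_add h5 h6))))))))))
    |>.trans (le_of_eq (by ring))
  rintro ⟨x, x', w, w'⟩ ⟨c1, c2, ⟨k1, k1a, k1b⟩, ⟨k2, k2a, k2b⟩, ⟨k3, k3a, k3b⟩, ⟨k4, k4a, k4b⟩⟩
  dsimp only at *
  by_cases ex : x = x'
  · exact Or.inl ex
  by_cases ew : w = w'
  · exact Or.inr (Or.inl ew)
  by_cases q1 : S.E x x' w
  · by_cases q2 : S.E x x' w'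
    · by_cases q3 : S.E x w w'
      · by_cases q4 : S.E x' w w'
        · exact (S.free x x' w w' q1 q2 q3 q4).elim
        · exact Or.inr (Or.inr (Or.inr (Or.inr (Or.inr ⟨k2b, fun h => ew h.symm, c2.symm,
            fun h => q4 (S.rot2 _ _ _ h)⟩))))
      · exact Or.inr (Or.inr (Or.inr (Or.inr (Or.inl ⟨k1b, fun h => ew h.symm, c2.symm,
            fun h => q3 (S.rot2 _ _ _ h)⟩))))
    · exact Or.inr (Or.inr (Or.inr (Or.inl ⟨k3a, fun h => ex h.symm, c1.symm, q2⟩)))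
  · exact Or.inr (Or.inr (Or.inl ⟨k1a, fun h => ex h.symm, c1.symm, q1⟩))

theorem MM_bound : (S.MM e) ^ 4 ≤ (n : ℝ) ^ 4 * (r : ℝ) ^ 3 *
    (2 * (n : ℝ) ^ 3 + cnt S.Bad + 4 * (cnt (S.D1h e) * (n : ℝ))) := by
  refine (c4_lower S.c (S.MP e)).trans (mul_le_mul_of_nonneg_left ?_ (by positivity))
  have h1 := diag1 (n := n)
  have h2 := diag2 (n := n)
  have h3 := S.d1h4 (e := e) (p := fun z => S.D1h e (z.1, z.2.1, z.2.2.1))
    (fun z => ((z.1, z.2.1, z.2.2.1), z.2.2.2)) (fun z h => h)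
    (by rintro ⟨x, x', w, w'⟩ ⟨u, u', t, t'⟩ h; simp only [Prod.mk.injEq] at h ⊢; tauto)
  have h4 := S.d1h4 (e := e) (p := fun z => S.D1h e (z.1, z.2.1, z.2.2.2))
    (fun z => ((z.1, z.2.1, z.2.2.2), z.2.2.1)) (fun z h => h)
    (by rintro ⟨x, x', w, w'⟩ ⟨u, u', t, t'⟩ h; simp only [Prod.mk.injEq] at h ⊢; tauto)
  have h5 := S.d1h4 (e := e) (p := fun z => S.D1h e (z.2.2.1, z.2.2.2, z.1))
    (fun z => ((z.2.2.1, z.2.2.2, z.1), z.2.1)) (fun z h => h)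
    (by rintro ⟨x, x', w, w'⟩ ⟨u, u', t, t'⟩ h; simp only [Prod.mk.injEq] at h ⊢; tauto)
  refine (cnt_mono ?_).trans ((cnt_or _ _).trans (add_le_add h1 ((cnt_or _ _).trans
    (add_le_add h2 ((cnt_or _ _).trans (add_le_add (le_refl (cnt S.Bad)) ((cnt_or _ _).trans
      (add_le_add h3 ((cnt_or _ _).trans (add_le_add h4 h5))))))))))
    |>.trans (le_of_eq_of_le rfl ?_)
  · rintro ⟨x, x', w, w'⟩ ⟨c1, c2, ⟨k1, k1a, k1b⟩, ⟨k2, k2a, k2b⟩, ⟨k3, k3a, k3b⟩, ⟨k4, k4a, k4b⟩⟩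
    dsimp only at *
    by_cases ex : x = x'
    · exact Or.inl ex
    by_cases ew : w = w'
    · exact Or.inr (Or.inl ew)
    by_cases q1 : S.E x x' w
    · exact Or.inr (Or.inr (Or.inr (Or.inl ⟨c1, k1.symm, q1, k1a, k2a⟩)))
    by_cases q2 : S.E x x' w'
    · exact Or.inr (Or.inr (Or.inr (Or.inr (Or.inl ⟨c1, k3.symm, q2, k3a, k4a⟩))))
    by_cases q3 : S.E x w w'
    · exact Or.inr (Or.inr (Or.inr (Or.inr (Or.inr ⟨c2, k1, S.rot _ _ _ q3, k1b, k3b⟩))))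
    exact Or.inr (Or.inr (Or.inl ⟨c1, c2, k1.symm, ex, ew, q1, q2, Or.inl q3⟩))
  · have := cnt_nonneg (S.D1h e)
    have hn : (0 : ℝ) ≤ n := Nat.cast_nonneg n
    nlinarith [mul_nonneg this hn]

/-- the orientation -/
def R (x y : Fin n) : Prop :=
  S.c x ≠ S.c y ∧ (S.a y x < S.a x y ∨ (S.a y x = S.a x y ∧ x < y))

theorem R_asymm {x y : Fin n} (h : S.R x y) : ¬ S.R y x := by
  rintro ⟨-, h2⟩
  obtain ⟨-, h1⟩ := h
  rcases h1 with h1 | ⟨h1, h1'⟩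
  · rcases h2 with h2 | ⟨h2, -⟩
    · exact lt_asymm h1 h2
    · exact absurd h2 (ne_of_gt h1)
  · rcases h2 with h2 | ⟨-, h2'⟩
    · exact absurd h1 (ne_of_gt h2)
    · exact lt_asymm h1' h2'

theorem R_or {x y : Fin n} (h : S.c x ≠ S.c y) : S.R x y ∨ S.R y x := by
  rcases lt_trichotomy (S.a y x) (S.a x y) with h1 | h1 | h1
  · exact Or.inl ⟨h, Or.inl h1⟩
  · have hxy : x ≠ y := fun k => h (by rw [k])
    rcases lt_or_gt_of_ne hxy with h2 | h2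
    · exact Or.inl ⟨h, Or.inr ⟨h1, h2⟩⟩
    · exact Or.inr ⟨h.symm, Or.inr ⟨h1.symm, h2⟩⟩
  · exact Or.inr ⟨h.symm, Or.inl h1⟩

theorem R_ne {x y : Fin n} (h : S.R x y) : S.c x ≠ S.c y := h.1

theorem R_le {x y : Fin n} (h : S.R x y) : S.a y x ≤ S.a x y := by
  rcases h.2 with h1 | h1
  · exact h1.le
  · exact h1.1.le

theorem R_not {x y : Fin n} (h : S.c x ≠ S.c y) (h1 : ¬ S.R x y) : S.R y x :=
  (S.R_or h).resolve_left h1

/-- missing triples -/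
def D2C (x x' w : Fin n) : Prop :=
  x ≠ x' ∧ S.c x = S.c x' ∧ S.c x ≠ S.c w ∧ ¬ S.E x x' w ∧ ¬ (S.R w x ∧ S.R w x')

def D2 (z : Fin n × Fin n × Fin n) : Prop := S.D2C z.1 z.2.1 z.2.2

theorem low3 (he : 0 ≤ e) (f : Fin n × Fin n × Fin n → (Fin n × Fin n) × Fin n)
    (hf : ∀ z z', f z = f z' → z = z') : cnt (fun z => S.Low e (f z)) ≤ e * (n : ℝ) ^ 2 :=
  (cnt_map (q := S.Low e) f (fun _ h => h) (fun a b _ _ h => hf a b h)).trans (S.low_bound he)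

theorem D2_bound (he : 0 ≤ e) :
    cnt S.D2 ≤ 2 * (e * (n : ℝ) ^ 2) + 2 * (S.MM e * (n : ℝ)) := by
  have h1 := S.low3 he (fun z => ((z.2.2, z.1), z.2.1))
    (by rintro ⟨x, x', w⟩ ⟨u, u', t⟩ h; simp only [Prod.mk.injEq] at h ⊢; tauto)
  have h2 := S.low3 he (fun z => ((z.2.2, z.2.1), z.1))
    (by rintro ⟨x, x', w⟩ ⟨u, u', t⟩ h; simp only [Prod.mk.injEq] at h ⊢; tauto)
  have h3 := pair3 (S.MPp e) (fun z => ((z.2.2, z.1), z.2.1))
    (by rintro ⟨x, x', w⟩ ⟨u, u', t⟩ h; simp only [Prod.mk.injEq] at h ⊢; tauto)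
  have h4 := pair3 (S.MPp e) (fun z => ((z.2.2, z.2.1), z.1))
    (by rintro ⟨x, x', w⟩ ⟨u, u', t⟩ h; simp only [Prod.mk.injEq] at h ⊢; tauto)
  refine (cnt_mono ?_).trans ((cnt_or _ _).trans (add_le_add h1 ((cnt_or _ _).trans
    (add_le_add h2 ((cnt_or _ _).trans (add_le_add h3 h4))))))
    |>.trans (le_of_eq (by unfold MM; ring))
  rintro ⟨x, x', w⟩ ⟨e1, c1, c2, q, hR⟩
  dsimp only at *
  have c3 : S.c x' ≠ S.c w := fun h => c2 (c1.trans h)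
  by_cases k : S.R w x
  · have k' : ¬ S.R w x' := fun h => hR ⟨k, h⟩
    have l := S.R_le (S.R_not c3.symm k')
    by_cases m : S.a w x' < e
    · exact Or.inr (Or.inl ⟨m, e1, c1, fun h => q (S.s12 _ _ _ h)⟩)
    · push Not at m
      exact Or.inr (Or.inr (Or.inr ⟨c3.symm, m, m.trans l⟩))
  · have l := S.R_le (S.R_not c2.symm k)
    by_cases m : S.a w x < e
    · exact Or.inl ⟨m, e1.symm, c1.symm, q⟩
    · push Not at m
      exact Or.inr (Or.inr (Or.inl ⟨c2.symm, m, m.trans l⟩))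

/-- induced oriented 4-cycles -/
def C4C (a b c d : Fin n) : Prop :=
  S.R a b ∧ S.R b c ∧ S.R c d ∧ S.R d a ∧ ¬ S.R a c ∧ ¬ S.R c a ∧ ¬ S.R b d ∧ ¬ S.R d b

def C4 (z : Fin n × Fin n × Fin n × Fin n) : Prop := S.C4C z.1 z.2.1 z.2.2.1 z.2.2.2

theorem c_eq {x y : Fin n} (h1 : ¬ S.R x y) (h2 : ¬ S.R y x) : S.c x = S.c y := by
  by_contra h
  rcases S.R_or h with k | k
  · exact h1 k
  · exact h2 k

theorem C4_D2 {a b c d : Fin n} (h : S.C4C a b c d) :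
    S.D2C a c b ∨ S.D2C a c d ∨ S.D2C b d a ∨ S.D2C b d c := by
  obtain ⟨h1, h2, h3, h4, h5, h6, h7, h8⟩ := h
  have c1 := S.c_eq h5 h6
  have c2 := S.c_eq h7 h8
  have ac : a ≠ c := fun k => S.R_asymm h1 (k ▸ h2)
  have bd : b ≠ d := fun k => S.R_asymm h2 (k ▸ h3)
  by_cases q1 : S.E a c b
  · by_cases q2 : S.E a c d
    · by_cases q3 : S.E b d a
      · by_cases q4 : S.E b d c
        · exact (S.free a c b d q1 q2 (S.rot2 _ _ _ q3) (S.rot2 _ _ _ q4)).elim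
        · exact Or.inr (Or.inr (Or.inr ⟨bd, c2, S.R_ne h2, q4,
            fun k => S.R_asymm h2 k.1⟩))
      · exact Or.inr (Or.inr (Or.inl ⟨bd, c2, (S.R_ne h1).symm, q3,
          fun k => S.R_asymm h4 k.2⟩))
    · exact Or.inr (Or.inl ⟨ac, c1, (S.R_ne h4).symm, q2, fun k => S.R_asymm h3 k.2⟩)
  · exact Or.inl ⟨ac, c1, S.R_ne h1, q1, fun k => S.R_asymm h1 k.1⟩

theorem C4_bound : cnt S.C4 ≤ 4 * (cnt S.D2 * (n : ℝ)) := by
  have key : ∀ f : Fin n × Fin n × Fin n × Fin n → (Fin n × Fin n × Fin n) × Fin n,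
      (∀ z z', f z = f z' → z = z') → cnt (fun z => S.D2 (f z).1) ≤ cnt S.D2 * (n : ℝ) := by
    intro f hf
    refine (cnt_map (q := fun z : (Fin n × Fin n × Fin n) × Fin n => S.D2 z.1) f
      (fun z h => h) (fun a b _ _ h => hf a b h)).trans (le_of_eq ?_)
    rw [cnt_prod, Fintype.card_fin]
  have h1 := key (fun z => ((z.1, z.2.2.1, z.2.1), z.2.2.2))
    (by rintro ⟨x, x', w, w'⟩ ⟨u, u', t, t'⟩ h; simp only [Prod.mk.injEq] at h ⊢; tauto)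
  have h2 := key (fun z => ((z.1, z.2.2.1, z.2.2.2), z.2.1))
    (by rintro ⟨x, x', w, w'⟩ ⟨u, u', t, t'⟩ h; simp only [Prod.mk.injEq] at h ⊢; tauto)
  have h3 := key (fun z => ((z.2.1, z.2.2.2, z.1), z.2.2.1))
    (by rintro ⟨x, x', w, w'⟩ ⟨u, u', t, t'⟩ h; simp only [Prod.mk.injEq] at h ⊢; tauto)
  have h4 := key (fun z => ((z.2.1, z.2.2.2, z.2.2.1), z.1))
    (by rintro ⟨x, x', w, w'⟩ ⟨u, u', t, t'⟩ h; simp only [Prod.mk.injEq] at h ⊢; tauto)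
  refine (cnt_mono ?_).trans ((cnt_or _ _).trans (add_le_add h1 ((cnt_or _ _).trans
    (add_le_add h2 ((cnt_or _ _).trans (add_le_add h3 h4))))))
    |>.trans (le_of_eq (by ring))
  rintro ⟨a, b, c, d⟩ h
  exact S.C4_D2 h

/-- superfluous triples with two vertices in one class -/
def D1 (z : Fin n × Fin n × Fin n) : Prop :=
  S.c z.2.1 = S.c z.2.2 ∧ S.E z.1 z.2.1 z.2.2 ∧ S.R z.1 z.2.1 ∧ S.R z.1 z.2.2

theorem NP12 : cnt (fun z : Fin n × Fin n × Fin n => S.NPp e (z.1, z.2.1)) ≤ S.NN e * (n : ℝ) :=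
  pair3 (S.NPp e) (fun z => ((z.1, z.2.1), z.2.2))
    (by rintro ⟨x, x', w⟩ ⟨u, u', t⟩ h; simp only [Prod.mk.injEq] at h ⊢; tauto)

theorem NP13 : cnt (fun z : Fin n × Fin n × Fin n => S.NPp e (z.1, z.2.2)) ≤ S.NN e * (n : ℝ) :=
  pair3 (S.NPp e) (fun z => ((z.1, z.2.2), z.2.1))
    (by rintro ⟨x, x', w⟩ ⟨u, u', t⟩ h; simp only [Prod.mk.injEq] at h ⊢; tauto)

theorem MP12 : cnt (fun z : Fin n × Fin n × Fin n => S.MPp e (z.1, z.2.1)) ≤ S.MM e * (n : ℝ) :=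
  pair3 (S.MPp e) (fun z => ((z.1, z.2.1), z.2.2))
    (by rintro ⟨x, x', w⟩ ⟨u, u', t⟩ h; simp only [Prod.mk.injEq] at h ⊢; tauto)

theorem MP13 : cnt (fun z : Fin n × Fin n × Fin n => S.MPp e (z.1, z.2.2)) ≤ S.MM e * (n : ℝ) :=
  pair3 (S.MPp e) (fun z => ((z.1, z.2.2), z.2.1))
    (by rintro ⟨x, x', w⟩ ⟨u, u', t⟩ h; simp only [Prod.mk.injEq] at h ⊢; tauto)

theorem D1_bound : cnt S.D1 ≤ cnt (S.D1h e) + 2 * (S.NN e * (n : ℝ)) := by
  have h0 : cnt (fun z : Fin n × Fin n × Fin n => S.D1h e (z.2.1, z.2.2, z.1)) ≤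
      cnt (S.D1h e) := by
    refine cnt_map (q := S.D1h e) (fun z => (z.2.1, z.2.2, z.1)) (fun z h => h) ?_
    rintro ⟨x, x', w⟩ ⟨u, u', t⟩ - - h
    simp only [Prod.mk.injEq] at h ⊢
    tauto
  refine (cnt_mono ?_).trans ((cnt_or _ _).trans (add_le_add h0 ((cnt_or _ _).trans
    (add_le_add (S.NP12 (e := e)) (S.NP13 (e := e))))))
    |>.trans (le_of_eq (by ring))
  rintro ⟨w, x, x'⟩ ⟨c1, q, r1, r2⟩
  dsimp only at *
  by_cases k1 : S.a w x < e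
  · exact Or.inr (Or.inl ⟨S.R_ne r1, k1, (S.R_le r1).trans_lt k1⟩)
  by_cases k2 : S.a w x' < e
  · exact Or.inr (Or.inr ⟨S.R_ne r2, k2, (S.R_le r2).trans_lt k2⟩)
  push Not at k1 k2
  exact Or.inl ⟨c1, (S.R_ne r1).symm, S.rot _ _ _ q, k1, k2⟩

/-- superfluous triples with vertices in three classes -/
def D3 (z : Fin n × Fin n × Fin n) : Prop :=
  S.c z.2.1 ≠ S.c z.2.2 ∧ S.E z.1 z.2.1 z.2.2 ∧ S.R z.1 z.2.1 ∧ S.R z.1 z.2.2

def D3' (e : ℝ) (w x u : Fin n) : Prop :=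
  S.c x ≠ S.c u ∧ S.c w ≠ S.c x ∧ S.c w ≠ S.c u ∧ S.E w x u ∧ S.a x w < e ∧ S.a u w < e

theorem D3'_bound (he : 0 ≤ e) : cnt (fun z : Fin n × Fin n × Fin n =>
    S.D3' e z.1 z.2.1 z.2.2) ≤ (2 * e + 1) * ((n : ℝ) ^ 2 * r) := by
  have h1 : cnt (fun z : Fin n × Fin n × Fin n => S.D3' e z.1 z.2.1 z.2.2) ≤
      cnt (fun z : (Fin n × Fin n × Fin r) × Fin n => S.c z.2 = z.1.2.2 ∧
        S.D3' e z.2 z.1.1 z.1.2.1) := by
    refine cnt_map (fun z => ((z.2.1, z.2.2, S.c z.1), z.1)) (fun z h => ⟨rfl, h⟩) ?_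
    rintro ⟨x, x', w⟩ ⟨u, u', t⟩ - - h
    simp only [Prod.mk.injEq] at h ⊢
    tauto
  refine h1.trans ((cnt_fiber_le' (t := 2 * e + 1) ?_).trans (le_of_eq ?_))
  · rintro ⟨x, u, j⟩
    dsimp only
    by_cases h : ∃ w0, S.c w0 = j ∧ S.D3' e w0 x u
    · obtain ⟨w0, hj, d1, d2, d3, d4, d5, d6⟩ := h
      have h2 : cnt (fun b => S.c b = j ∧ S.D3' e b x u) ≤
          cnt (fun b => b = w0 ∨ S.nb x w0 b ∨ S.nb u w0 b) := by
        refine cnt_mono ?_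
        rintro v ⟨vj, v1, v2, v3, v4, v5, v6⟩
        by_cases ev : v = w0
        · exact Or.inl ev
        by_cases q1 : S.E w0 v x
        · by_cases q2 : S.E w0 v u
          · exact (S.free w0 v x u q1 q2 d4 v4).elim
          · exact Or.inr (Or.inr ⟨ev, vj.trans hj.symm, q2⟩)
        · exact Or.inr (Or.inl ⟨ev, vj.trans hj.symm, q1⟩)
      have h3 : cnt (fun b => b = w0 ∨ S.nb x w0 b ∨ S.nb u w0 b) ≤
          1 + (S.a x w0 + S.a u w0) := by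
        refine (cnt_or _ _).trans (add_le_add (le_of_eq (cnt_eq_one w0)) (cnt_or _ _))
      linarith
    · refine (cnt_mono (q := fun _ => False) (fun y hy => h ⟨y, hy⟩)).trans ?_
      rw [cnt_false]
      linarith
  · simp only [Fintype.card_prod, Fintype.card_fin]
    push_cast
    ring

theorem D3_bound (he : 0 ≤ e) : cnt S.D3 ≤ 2 * (S.NN e * (n : ℝ)) + 2 * (S.MM e * (n : ℝ)) +
    (2 * e + 1) * ((n : ℝ) ^ 2 * r) := by
  refine (cnt_mono ?_).trans ((cnt_or _ _).trans (add_le_add (S.NP12 (e := e)) ((cnt_or _ _).trans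
    (add_le_add (S.NP13 (e := e)) ((cnt_or _ _).trans (add_le_add (S.MP12 (e := e))
      ((cnt_or _ _).trans (add_le_add (S.MP13 (e := e)) (S.D3'_bound he)))))))))
    |>.trans (le_of_eq (by ring))
  rintro ⟨w, x, x'⟩ ⟨c1, q, r1, r2⟩
  dsimp only at *
  by_cases k1 : S.a w x < e
  · exact Or.inl ⟨S.R_ne r1, k1, (S.R_le r1).trans_lt k1⟩
  by_cases k2 : S.a w x' < e
  · exact Or.inr (Or.inl ⟨S.R_ne r2, k2, (S.R_le r2).trans_lt k2⟩)
  push Not at k1 k2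
  by_cases k3 : S.a x w < e
  · by_cases k4 : S.a x' w < e
    · exact Or.inr (Or.inr (Or.inr (Or.inr ⟨c1, S.R_ne r1, S.R_ne r2, q, k3, k4⟩)))
    · push Not at k4
      exact Or.inr (Or.inr (Or.inr (Or.inl ⟨S.R_ne r2, k2, k4⟩)))
  · push Not at k3
    exact Or.inr (Or.inr (Or.inl ⟨S.R_ne r1, k1, k3⟩))

/-- the triples which are edges but should not be -/
def BadT (z : Fin n × Fin n × Fin n) : Prop :=
  S.E z.1 z.2.1 z.2.2 ∧ ((S.c z.1 = S.c z.2.1 ∧ S.c z.1 = S.c z.2.2) ∨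
    (S.R z.1 z.2.1 ∧ S.R z.1 z.2.2))

/-- the edges inside classes -/
def Inn (z : Fin n × Fin n × Fin n) : Prop :=
  S.E z.1 z.2.1 z.2.2 ∧ S.c z.1 = S.c z.2.1 ∧ S.c z.1 = S.c z.2.2

theorem BadT_bound (he : 0 ≤ e) : cnt S.BadT ≤ cnt S.Inn + cnt (S.D1h e) +
    4 * (S.NN e * (n : ℝ)) + 2 * (S.MM e * (n : ℝ)) + (2 * e + 1) * ((n : ℝ) ^ 2 * r) := by
  refine (cnt_mono ?_).trans ((cnt_or _ _).trans (add_le_add (le_refl (cnt S.Inn))
    ((cnt_or _ _).trans (add_le_add (S.D1_bound (e := e)) (S.D3_bound he)))))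
    |>.trans (le_of_eq (by ring))
  rintro ⟨x, y, z⟩ ⟨q, h | h⟩
  · exact Or.inl ⟨q, h⟩
  · by_cases k : S.c y = S.c z
    · exact Or.inr (Or.inl ⟨k, q, h⟩)
    · exact Or.inr (Or.inr ⟨k, q, h⟩)

end Sys

end Pool.Agent.Run7.h122.TT
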