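import Pool.Agent.Run7.h122.Cnt

/-! `K_4^3`-free 3-graphs with a vertex colouring: the structure given by the quadruples with two
vertices in one class and two in another. -/

set_option autoImplicit false
open Finset
open scoped Classical

namespace Pool.Agent.Run7.h122.TT

/-- a `K_4^3`-free 3-graph (as a symmetric relation) with a vertex colouring -/
structure Sys (n r : ℕ) where
  E : Fin n → Fin n → Fin n → Prop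
  c : Fin n → Fin r
  s12 : ∀ x y z, E x y z → E y x z
  s23 : ∀ x y z, E x y z → E x z y
  ne : ∀ x y z, E x y z → x ≠ y
  free : ∀ x y z w, E x y z → E x y w → E x z w → E y z w → False

namespace Sys
variable {n r : ℕ} (S : Sys n r)

theorem s13 (x y z : Fin n) (h : S.E x y z) : S.E z y x :=
  S.s12 _ _ _ (S.s23 _ _ _ (S.s12 _ _ _ h))
theorem rot (x y z : Fin n) (h : S.E x y z) : S.E y z x := S.s23 _ _ _ (S.s12 _ _ _ h)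
theorem rot2 (x y z : Fin n) (h : S.E x y z) : S.E z x y := S.s12 _ _ _ (S.s23 _ _ _ h)
theorem ne23 (x y z : Fin n) (h : S.E x y z) : y ≠ z := S.ne _ _ _ (S.rot _ _ _ h)
theorem ne13 (x y z : Fin n) (h : S.E x y z) : x ≠ z := S.ne _ _ _ (S.s23 _ _ _ h)

/-- `y` is joined to `x` in the non-edge graph of `w` on the class of `x` -/
def nb (w x y : Fin n) : Prop := y ≠ x ∧ S.c y = S.c x ∧ ¬ S.E x y w

/-- the degree of `x` in the non-edge graph of `w` -/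
noncomputable def a (w x : Fin n) : ℝ := cnt (fun y => S.nb w x y)

/-- (some) quadruples with two vertices in each of two classes and at most one edge -/
def BadC (x y z w : Fin n) : Prop :=
  S.c x = S.c y ∧ S.c z = S.c w ∧ S.c x ≠ S.c z ∧ x ≠ y ∧ z ≠ w ∧ ¬ S.E x y z ∧ ¬ S.E x y w ∧
    (¬ S.E x z w ∨ ¬ S.E y z w)

def Bad (q : Fin n × Fin n × Fin n × Fin n) : Prop := S.BadC q.1 q.2.1 q.2.2.1 q.2.2.2

def D1hC (e : ℝ) (x y w : Fin n) : Prop :=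
  S.c x = S.c y ∧ S.c x ≠ S.c w ∧ S.E x y w ∧ e ≤ S.a w x ∧ e ≤ S.a w y

def D1h (e : ℝ) (z : Fin n × Fin n × Fin n) : Prop := S.D1hC e z.1 z.2.1 z.2.2

def PPC (x y x' y' : Fin n) (j : Fin r) (w : Fin n) : Prop :=
  S.c w = j ∧ S.c x = S.c x' ∧ S.c x ≠ S.c w ∧ S.E x x' w ∧ S.nb w x y ∧ S.nb w x' y'

def PP (z : (Fin n × Fin n × Fin n × Fin n × Fin r) × Fin n) : Prop :=
  S.PPC z.1.1 z.1.2.1 z.1.2.2.1 z.1.2.2.2.1 z.1.2.2.2.2 z.2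

theorem pp_key {x y x' y' : Fin n} {j : Fin r} {w1 w2 : Fin n} (h1 : S.PPC x y x' y' j w1)
    (h2 : S.PPC x y x' y' j w2) (hw : w1 ≠ w2) : S.BadC x y w1 w2 ∨ S.BadC x' y' w1 w2 := by
  obtain ⟨c1, c2, c3, e1, ⟨n1, n2, n3⟩, ⟨m1, m2, m3⟩⟩ := h1
  obtain ⟨c1', -, -, e1', ⟨-, -, n3'⟩, ⟨-, -, m3'⟩⟩ := h2
  have cw : S.c w1 = S.c w2 := c1.trans c1'.symm
  by_cases k : S.E x w1 w2
  · by_cases k' : S.E x' w1 w2
    · exact (S.free x x' w1 w2 e1 e1' k k').elim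
    · exact Or.inr ⟨m2.symm, cw, fun h => c3 (c2.trans h), m1.symm, hw, m3, m3', Or.inl k'⟩
  · exact Or.inl ⟨n2.symm, cw, c3, n1.symm, hw, n3, n3', Or.inl k⟩

theorem pp_pairs : cnt (fun z : (Fin n × Fin n × Fin n × Fin n × Fin r) × Fin n × Fin n =>
    S.PP (z.1, z.2.1) ∧ S.PP (z.1, z.2.2)) ≤ (n : ℝ) ^ 5 + 2 * cnt S.Bad * (n : ℝ) ^ 2 := by
  have h0 : cnt (fun z : (Fin n × Fin n × Fin n × Fin n × Fin r) × Fin n × Fin n =>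
      z.2.1 = z.2.2 ∧ z.1.2.2.2.2 = S.c z.2.1) ≤ (n : ℝ) ^ 5 := by
    have : cnt (fun z : (Fin n × Fin n × Fin n × Fin n × Fin r) × Fin n × Fin n =>
        z.2.1 = z.2.2 ∧ z.1.2.2.2.2 = S.c z.2.1) ≤
        cnt (fun _ : Fin n × Fin n × Fin n × Fin n × Fin n => True) := by
      refine cnt_map (fun z => (z.1.1, z.1.2.1, z.1.2.2.1, z.1.2.2.2.1, z.2.1)) (fun _ _ => trivial) ?_
      rintro ⟨⟨x, y, x', y', j⟩, w1, w2⟩ ⟨⟨u, v, u', v', i⟩, t1, t2⟩ ⟨p1, p2⟩ ⟨q1, q2⟩ h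
      simp only [Prod.mk.injEq] at h p1 p2 q1 q2 ⊢
      obtain ⟨rfl, rfl, rfl, rfl, rfl⟩ := h
      subst p1 q1 p2 q2
      exact ⟨⟨rfl, rfl, rfl, rfl, rfl⟩, rfl, rfl⟩
    refine this.trans (le_of_eq ?_)
    rw [cnt_true]
    simp only [Fintype.card_prod, Fintype.card_fin]
    push_cast
    ring
  have h1 : cnt (fun z : (Fin n × Fin n × Fin n × Fin n × Fin r) × Fin n × Fin n =>
      S.BadC z.1.1 z.1.2.1 z.2.1 z.2.2 ∧ z.1.2.2.2.2 = S.c z.2.1) ≤ cnt S.Bad * (n : ℝ) ^ 2 := by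
    have : cnt (fun z : (Fin n × Fin n × Fin n × Fin n × Fin r) × Fin n × Fin n =>
        S.BadC z.1.1 z.1.2.1 z.2.1 z.2.2 ∧ z.1.2.2.2.2 = S.c z.2.1) ≤
        cnt (fun z : (Fin n × Fin n × Fin n × Fin n) × (Fin n × Fin n) => S.Bad z.1) := by
      refine cnt_map (fun z => ((z.1.1, z.1.2.1, z.2.1, z.2.2), (z.1.2.2.1, z.1.2.2.2.1)))
        (fun z h => h.1) ?_
      rintro ⟨⟨x, y, x', y', j⟩, w1, w2⟩ ⟨⟨u, v, u', v', i⟩, t1, t2⟩ ⟨-, p2⟩ ⟨-, q2⟩ h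
      simp only [Prod.mk.injEq] at h p2 q2 ⊢
      obtain ⟨⟨rfl, rfl, rfl, rfl⟩, rfl, rfl⟩ := h
      subst p2 q2
      exact ⟨⟨rfl, rfl, rfl, rfl, rfl⟩, rfl, rfl⟩
    refine this.trans (le_of_eq ?_)
    rw [cnt_prod]
    simp only [Fintype.card_prod, Fintype.card_fin]
    push_cast
    ring
  have h2 : cnt (fun z : (Fin n × Fin n × Fin n × Fin n × Fin r) × Fin n × Fin n =>
      S.BadC z.1.2.2.1 z.1.2.2.2.1 z.2.1 z.2.2 ∧ z.1.2.2.2.2 = S.c z.2.1) ≤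
      cnt S.Bad * (n : ℝ) ^ 2 := by
    have : cnt (fun z : (Fin n × Fin n × Fin n × Fin n × Fin r) × Fin n × Fin n =>
        S.BadC z.1.2.2.1 z.1.2.2.2.1 z.2.1 z.2.2 ∧ z.1.2.2.2.2 = S.c z.2.1) ≤
        cnt (fun z : (Fin n × Fin n × Fin n × Fin n) × (Fin n × Fin n) => S.Bad z.1) := by
      refine cnt_map (fun z => ((z.1.2.2.1, z.1.2.2.2.1, z.2.1, z.2.2), (z.1.1, z.1.2.1)))
        (fun z h => h.1) ?_
      rintro ⟨⟨x, y, x', y', j⟩, w1, w2⟩ ⟨⟨u, v, u', v', i⟩, t1, t2⟩ ⟨-, p2⟩ ⟨-, q2⟩ h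
      simp only [Prod.mk.injEq] at h p2 q2 ⊢
      obtain ⟨⟨rfl, rfl, rfl, rfl⟩, rfl, rfl⟩ := h
      subst p2 q2
      exact ⟨⟨rfl, rfl, rfl, rfl, rfl⟩, rfl, rfl⟩
    refine this.trans (le_of_eq ?_)
    rw [cnt_prod]
    simp only [Fintype.card_prod, Fintype.card_fin]
    push_cast
    ring
  refine (cnt_mono ?_).trans ((cnt_or _ _).trans (add_le_add h0 ((cnt_or _ _).trans
    (add_le_add h1 h2)))) |>.trans (le_of_eq (by ring))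
  rintro ⟨⟨x, y, x', y', j⟩, w1, w2⟩ ⟨p1, p2⟩
  have k : j = S.c w1 := p1.1.symm
  by_cases hw : w1 = w2
  · exact Or.inl ⟨hw, k⟩
  · rcases S.pp_key p1 p2 hw with hb | hb
    · exact Or.inr (Or.inl ⟨hb, k⟩)
    · exact Or.inr (Or.inr ⟨hb, k⟩)

theorem d1h_pp {e : ℝ} (he : 0 ≤ e) : e ^ 2 * cnt (S.D1h e) ≤ cnt S.PP := by
  have h1 : e ^ 2 * cnt (S.D1h e) ≤ cnt (fun z : (Fin n × Fin n × Fin n) × (Fin n × Fin n) =>
      S.D1h e z.1 ∧ S.nb z.1.2.2 z.1.1 z.2.1 ∧ S.nb z.1.2.2 z.1.2.1 z.2.2) := by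
    refine cnt_fiber_ge fun q hq => ?_
    have e1 : cnt (fun b : Fin n × Fin n =>
        S.D1h e q ∧ S.nb q.2.2 q.1 b.1 ∧ S.nb q.2.2 q.2.1 b.2) =
        S.a q.2.2 q.1 * S.a q.2.2 q.2.1 := by
      unfold a
      rw [← cnt_prod2]
      congr 1
      funext b
      simp only [hq, true_and]
    rw [sq]
    refine le_trans ?_ (le_of_eq e1.symm)
    exact mul_le_mul hq.2.2.2.1 hq.2.2.2.2 he (he.trans hq.2.2.2.1)
  refine h1.trans (cnt_map (fun z => ((z.1.1, z.2.1, z.1.2.1, z.2.2, S.c z.1.2.2), z.1.2.2)) ?_ ?_)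
  · rintro ⟨⟨x, x', w⟩, y, y'⟩ ⟨⟨c1, c2, c3, -, -⟩, k1, k2⟩
    exact ⟨rfl, c1, c2, c3, k1, k2⟩
  · rintro ⟨⟨x, x', w⟩, y, y'⟩ ⟨⟨u, u', t⟩, v, v'⟩ - - h
    simp only [Prod.mk.injEq] at h ⊢
    tauto

theorem d1h_bound {e : ℝ} (he : 0 ≤ e) : (e ^ 2 * cnt (S.D1h e)) ^ 2 ≤
    (n : ℝ) ^ 4 * r * ((n : ℝ) ^ 5 + 2 * cnt S.Bad * (n : ℝ) ^ 2) := by
  have h1 := cnt_cs S.PP
  have h2 : (e ^ 2 * cnt (S.D1h e)) ^ 2 ≤ (cnt S.PP) ^ 2 :=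
    pow_le_pow_left₀ (mul_nonneg (sq_nonneg e) (cnt_nonneg _)) (S.d1h_pp he) 2
  refine h2.trans (h1.trans ?_)
  have h3 : ((Fintype.card (Fin n × Fin n × Fin n × Fin n × Fin r) : ℕ) : ℝ) =
      (n : ℝ) ^ 4 * r := by
    simp only [Fintype.card_prod, Fintype.card_fin]
    push_cast
    ring
  rw [h3]
  exact mul_le_mul_of_nonneg_left S.pp_pairs (by positivity)

end Sys

/-- many quadruples `x,x' | w,w'` with all four pairs in a dense relation -/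
theorem c4_lower {n r : ℕ} (c : Fin n → Fin r) (P : Fin n → Fin n → Prop) :
    (cnt (fun z : Fin n × Fin n => P z.1 z.2)) ^ 4 ≤ (n : ℝ) ^ 4 * (r : ℝ) ^ 3 *
      cnt (fun z : Fin n × Fin n × Fin n × Fin n => c z.1 = c z.2.1 ∧ c z.2.2.1 = c z.2.2.2 ∧
        P z.2.2.1 z.1 ∧ P z.2.2.1 z.2.1 ∧ P z.2.2.2 z.1 ∧ P z.2.2.2 z.2.1) := by
  set Q : Fin n × Fin n × Fin n → Prop := fun z => c z.2.1 = c z.2.2 ∧ P z.1 z.2.1 ∧ P z.1 z.2.2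
  have a1 : cnt (fun z : Fin n × Fin n => P z.1 z.2) ≤
      cnt (fun z : (Fin n × Fin r) × Fin n => c z.2 = z.1.2 ∧ P z.1.1 z.2) := by
    refine cnt_map (fun z => ((z.1, c z.2), z.2)) (fun z h => ⟨rfl, h⟩) ?_
    rintro ⟨x, y⟩ ⟨u, v⟩ - - h
    simp only [Prod.mk.injEq] at h ⊢
    tauto
  have a2 := cnt_cs (fun z : (Fin n × Fin r) × Fin n => c z.2 = z.1.2 ∧ P z.1.1 z.2)
  have a3 : cnt (fun z : (Fin n × Fin r) × Fin n × Fin n =>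
      (c z.2.1 = z.1.2 ∧ P z.1.1 z.2.1) ∧ (c z.2.2 = z.1.2 ∧ P z.1.1 z.2.2)) ≤ cnt Q := by
    refine cnt_map (fun z => (z.1.1, z.2.1, z.2.2)) ?_ ?_
    · rintro ⟨⟨w, i⟩, x, x'⟩ ⟨⟨h1, h2⟩, h3, h4⟩
      exact ⟨h1.trans h3.symm, h2, h4⟩
    · rintro ⟨⟨w, i⟩, x, x'⟩ ⟨⟨t, j⟩, u, u'⟩ ⟨⟨h1, h2⟩, h3, h4⟩ ⟨⟨g1, g2⟩, g3, g4⟩ h
      simp only [Prod.mk.injEq] at h h1 g1 ⊢
      obtain ⟨rfl, rfl, rfl⟩ := h
      subst h1 g1
      exact ⟨⟨rfl, rfl⟩, rfl, rfl⟩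
  have a4 : (cnt (fun z : Fin n × Fin n => P z.1 z.2)) ^ 2 ≤ (n : ℝ) * r * cnt Q := by
    refine (pow_le_pow_left₀ (cnt_nonneg _) a1 2).trans (a2.trans ?_)
    have h3 : ((Fintype.card (Fin n × Fin r) : ℕ) : ℝ) = (n : ℝ) * r := by
      simp only [Fintype.card_prod, Fintype.card_fin]
      push_cast
      ring
    rw [h3]
    exact mul_le_mul_of_nonneg_left a3 (by positivity)
  have b1 : cnt Q ≤ cnt (fun z : (Fin n × Fin n × Fin r) × Fin n => c z.2 = z.1.2.2 ∧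
      Q (z.2, z.1.1, z.1.2.1)) := by
    refine cnt_map (fun z => ((z.2.1, z.2.2, c z.1), z.1)) (fun z h => ⟨rfl, h⟩) ?_
    rintro ⟨x, y, z⟩ ⟨u, v, w⟩ - - h
    simp only [Prod.mk.injEq] at h ⊢
    tauto
  have b2 := cnt_cs (fun z : (Fin n × Fin n × Fin r) × Fin n => c z.2 = z.1.2.2 ∧
      Q (z.2, z.1.1, z.1.2.1))
  have b3 : cnt (fun z : (Fin n × Fin n × Fin r) × Fin n × Fin n =>
      (c z.2.1 = z.1.2.2 ∧ Q (z.2.1, z.1.1, z.1.2.1)) ∧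
      (c z.2.2 = z.1.2.2 ∧ Q (z.2.2, z.1.1, z.1.2.1))) ≤
      cnt (fun z : Fin n × Fin n × Fin n × Fin n => c z.1 = c z.2.1 ∧ c z.2.2.1 = c z.2.2.2 ∧
        P z.2.2.1 z.1 ∧ P z.2.2.1 z.2.1 ∧ P z.2.2.2 z.1 ∧ P z.2.2.2 z.2.1) := by
    refine cnt_map (fun z => (z.1.1, z.1.2.1, z.2.1, z.2.2)) ?_ ?_
    · rintro ⟨⟨x, x', j⟩, w, w'⟩ ⟨⟨h1, h2, h3, h4⟩, h5, h6, h7, h8⟩
      exact ⟨h2, h1.trans h5.symm, h3, h4, h7, h8⟩
    · rintro ⟨⟨x, x', j⟩, w, w'⟩ ⟨⟨u, u', i⟩, t, t'⟩ ⟨⟨h1, h2⟩, h3, h4⟩ ⟨⟨g1, g2⟩, g3, g4⟩ h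
      simp only [Prod.mk.injEq] at h h1 g1 ⊢
      obtain ⟨rfl, rfl, rfl, rfl⟩ := h
      subst h1 g1
      exact ⟨⟨rfl, rfl, rfl⟩, rfl, rfl⟩
  have b4 : (cnt Q) ^ 2 ≤ (n : ℝ) ^ 2 * r *
      cnt (fun z : Fin n × Fin n × Fin n × Fin n => c z.1 = c z.2.1 ∧ c z.2.2.1 = c z.2.2.2 ∧
        P z.2.2.1 z.1 ∧ P z.2.2.1 z.2.1 ∧ P z.2.2.2 z.1 ∧ P z.2.2.2 z.2.1) := by
    refine (pow_le_pow_left₀ (cnt_nonneg _) b1 2).trans (b2.trans ?_)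
    have h3 : ((Fintype.card (Fin n × Fin n × Fin r) : ℕ) : ℝ) = (n : ℝ) ^ 2 * r := by
      simp only [Fintype.card_prod, Fintype.card_fin]
      push_cast
      ring
    rw [h3]
    exact mul_le_mul_of_nonneg_left b3 (by positivity)
  have f1 : (cnt (fun z : Fin n × Fin n => P z.1 z.2)) ^ 4 ≤ ((n : ℝ) * r * cnt Q) ^ 2 := by
    have := pow_le_pow_left₀ (by positivity) a4 2
    calc _ = ((cnt (fun z : Fin n × Fin n => P z.1 z.2)) ^ 2) ^ 2 := by ring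
      _ ≤ _ := this
  refine f1.trans ?_
  calc ((n : ℝ) * r * cnt Q) ^ 2 = ((n : ℝ) * r) ^ 2 * (cnt Q) ^ 2 := by ring
    _ ≤ ((n : ℝ) * r) ^ 2 * ((n : ℝ) ^ 2 * r *
      cnt (fun z : Fin n × Fin n × Fin n × Fin n => c z.1 = c z.2.1 ∧ c z.2.2.1 = c z.2.2.2 ∧
        P z.2.2.1 z.1 ∧ P z.2.2.1 z.2.1 ∧ P z.2.2.2 z.1 ∧ P z.2.2.2 z.2.1)) :=
        mul_le_mul_of_nonneg_left b4 (by positivity)
    _ = _ := by ring

end Pool.Agent.Run7.h122.TT
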